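import Mathlib
import Pool.Agent.H73.PZ.Z4

/-!
MP_d9606f_gt, full theorem: charts, definitions (helper73).

* `half F c`, `full F c`: the points of `M` which the chart `c` maps into the ball of radius
  `r c / 2`, resp. `r c`.
* `ch F m`: the first chart `c` (in an enumeration) with `m ∈ half F c`; `u F m m'`: the difference of
  the coordinates of `m'` and `m` in the chart `ch F m`.
* `Om F g c c'`, `Kc F g c c'`, `lo F g c c'`: domain (open set), compact part and values of the local
  expression of the map `g : M → M` in the charts `c`, `c'`.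
* `D1 F g m`: the derivative of `g` at `m` in the charts `ch F m`, `ch F (g m)`, as a matrix.
-/

open MeasureTheory Filter
open scoped Topology ContDiff

namespace Pool.Agent.H73.LX

open Pool.Agent.H73.PZ

noncomputable section

variable {d : ℕ} {M : Type} [TopologicalSpace M] (F : Fr d M)

/-- The points which the chart `c` maps into the half ball. -/
def half (c : F.κ) : Set M := (F.φ c).source ∩ F.φ c ⁻¹' Metric.ball (F.z c) (F.r c / 2)

/-- The points which the chart `c` maps into the ball. -/
def full (c : F.κ) : Set M := (F.φ c).source ∩ F.φ c ⁻¹' Metric.ball (F.z c) (F.r c)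

theorem half_nonempty (m : M) : {c | m ∈ half F c}.Nonempty := by
  obtain ⟨c, h⟩ := F.cover m
  exact ⟨c, h⟩

/-- The chart chosen at `m`. -/
def ch (m : M) : F.κ :=
  Function.argminOn (fun c => (Fintype.equivFin F.κ c : ℕ)) {c | m ∈ half F c} (half_nonempty F m)

/-- The difference of the coordinates in the chart chosen at `m`. -/
def u (m m' : M) : Eu d := F.φ (ch F m) m' - F.φ (ch F m) m

/-- The domain of the local expression of `g` in the charts `c`, `c'`. -/
def Om (g : M → M) (c c' : F.κ) : Set (Eu d) :=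
  Metric.ball (F.z c) (F.r c) ∩ {w | g ((F.φ c).symm w) ∈ full F c'}

/-- The compact part of the domain. -/
def Kc (g : M → M) (c c' : F.κ) : Set (Eu d) :=
  Metric.closedBall (F.z c) (F.r c / 2) ∩
    {w | g ((F.φ c).symm w) ∈ (F.φ c').source ∧
      F.φ c' (g ((F.φ c).symm w)) ∈ Metric.closedBall (F.z c') (F.r c' / 2)}

/-- The local expression of `g`. -/
def lo (g : M → M) (c c' : F.κ) (w : Eu d) : Eu d := F.φ c' (g ((F.φ c).symm w))

/-- The derivative of `g` in the chosen charts. -/
def D1 (g : M → M) (m : M) : Matrix (Fin d) (Fin d) ℝ := fun l k =>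
  fderiv ℝ (lo F g (ch F m) (ch F (g m))) (F.φ (ch F m) m) (EuclideanSpace.single k 1) l

/-- The Jacobi matrix of `g` in the frame. -/
def Jg (g : M → M) (hA : ∀ f ∈ F.A, f ∘ g ∈ F.A) (m : M) : Matrix F.ι F.ι ℝ := fun i j =>
  (F.X i ⟨(F.ψ j).1 ∘ g, hA _ (F.ψ j).2⟩).1 m

theorem ch_mem (m : M) : m ∈ half F (ch F m) :=
  Function.argminOn_mem (fun c => (Fintype.equivFin F.κ c : ℕ)) {c | m ∈ half F c}
    (half_nonempty F m)

theorem ch_src (m : M) : m ∈ (F.φ (ch F m)).source := (ch_mem F m).1

theorem ch_ball (m : M) : F.φ (ch F m) m ∈ Metric.ball (F.z (ch F m)) (F.r (ch F m) / 2) :=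
  (ch_mem F m).2

theorem half_sub (c : F.κ) : half F c ⊆ full F c := fun m h =>
  ⟨h.1, Metric.ball_subset_ball (by linarith [F.r_pos c]) h.2⟩

theorem ch_full (m : M) : m ∈ full F (ch F m) := half_sub F _ (ch_mem F m)

theorem isOpen_half (c : F.κ) : IsOpen (half F c) :=
  (F.φ c).isOpen_inter_preimage Metric.isOpen_ball

theorem isOpen_full (c : F.κ) : IsOpen (full F c) :=
  (F.φ c).isOpen_inter_preimage Metric.isOpen_ball

@[simp] theorem u_self (m : M) : u F m m = 0 := sub_self _

theorem ch_eq_iff (m : M) (c : F.κ) : ch F m = c ↔ m ∈ half F c ∧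
    ∀ c' : F.κ, (Fintype.equivFin F.κ c' : ℕ) < (Fintype.equivFin F.κ c : ℕ) → m ∉ half F c' := by
  constructor
  · rintro rfl
    refine ⟨ch_mem F m, fun c' hc' h => ?_⟩
    exact Function.not_lt_argminOn (fun c => (Fintype.equivFin F.κ c : ℕ)) {c | m ∈ half F c} h hc'
  · rintro ⟨h1, h2⟩
    have h3 : ¬ (Fintype.equivFin F.κ c : ℕ) < (Fintype.equivFin F.κ (ch F m) : ℕ) :=
      Function.not_lt_argminOn (fun c => (Fintype.equivFin F.κ c : ℕ)) {c | m ∈ half F c} h1
    have h4 : ¬ (Fintype.equivFin F.κ (ch F m) : ℕ) < (Fintype.equivFin F.κ c : ℕ) :=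
      fun h => h2 _ h (ch_mem F m)
    have h5 : (Fintype.equivFin F.κ (ch F m) : ℕ) = (Fintype.equivFin F.κ c : ℕ) := by omega
    exact (Fintype.equivFin F.κ).injective (Fin.ext h5)

theorem measurableSet_ch [MeasurableSpace M] [BorelSpace M] (c : F.κ) :
    MeasurableSet {m | ch F m = c} := by
  have e : {m | ch F m = c} = half F c ∩
      ⋂ c' : F.κ, {m | (Fintype.equivFin F.κ c' : ℕ) < (Fintype.equivFin F.κ c : ℕ) →
        m ∉ half F c'} := by
    ext m
    rw [Set.mem_ofPred_eq, ch_eq_iff, Set.mem_inter_iff, Set.mem_iInter]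
    rfl
  rw [e]
  have : Countable F.κ := Finite.to_countable
  refine (isOpen_half F c).measurableSet.inter (MeasurableSet.iInter fun c' => ?_)
  by_cases h : (Fintype.equivFin F.κ c' : ℕ) < (Fintype.equivFin F.κ c : ℕ)
  · simp only [h, forall_const]
    exact (isOpen_half F c').measurableSet.compl
  · simp [h]

end

end Pool.Agent.H73.LX
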