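import Mathlib
import Pool.Agent.H73.LX.Ch

/-!
MP_d9606f_gt, full theorem: the distance and the chosen charts (helper73).

`exists_u_bound`: if `dst m m' ≤ δ` then `m'` is in the ball of the chart chosen at `m`, and
`|u m m'|` and `dst m m'` are comparable.
-/

open MeasureTheory Filter
open scoped Topology ContDiff

namespace Pool.Agent.H73.LX

open Pool.Agent.H73.PZ

variable {d : ℕ} {M : Type} [TopologicalSpace M] (F : Fr d M)

theorem dst_nonneg (m m' : M) : 0 ≤ F.dst m m' := norm_nonneg _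

theorem dst_self (m : M) : F.dst m m = 0 := by
  unfold Fr.dst
  simp only [sub_self]
  exact norm_zero

theorem dst_comm (m m' : M) : F.dst m m' = F.dst m' m := by
  unfold Fr.dst
  rw [← norm_neg]
  congr 1
  funext j
  simp

theorem dst_tri (m m' m'' : M) : F.dst m m'' ≤ F.dst m m' + F.dst m' m'' := by
  unfold Fr.dst
  have h : (fun j => (F.ψ j).1 m - (F.ψ j).1 m'' : F.ι → ℝ) =
      (fun j => (F.ψ j).1 m - (F.ψ j).1 m') + (fun j => (F.ψ j).1 m' - (F.ψ j).1 m'') := by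
    funext j
    simp
  rw [h]
  exact norm_add_le _ _

theorem dst_ψ (m m' : M) (j : F.ι) : |(F.ψ j).1 m - (F.ψ j).1 m'| ≤ F.dst m m' :=
  norm_le_pi_norm (fun j => (F.ψ j).1 m - (F.ψ j).1 m' : F.ι → ℝ) j

theorem dst_le {m m' : M} {C : ℝ} (hC : 0 ≤ C) (h : ∀ j, |(F.ψ j).1 m - (F.ψ j).1 m'| ≤ C) :
    F.dst m m' ≤ C := (pi_norm_le_iff_of_nonneg hC).2 h

theorem continuous_dst : Continuous fun q : M × M => F.dst q.1 q.2 := by
  unfold Fr.dst
  refine (continuous_pi fun j => ?_).norm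
  exact ((F.cont (F.ψ j)).comp continuous_fst).sub ((F.cont (F.ψ j)).comp continuous_snd)

theorem eq_of_dst {m m' : M} (h : F.dst m m' = 0) : m = m' := by
  refine F.sep _ _ fun j => ?_
  have h1 := dst_ψ F m m' j
  rw [h] at h1
  have h2 := abs_nonpos_iff.1 h1
  linarith

theorem dst_pos {m m' : M} (h : m ≠ m') : 0 < F.dst m m' :=
  lt_of_le_of_ne (dst_nonneg F m m') fun h' => h (eq_of_dst F h'.symm)

theorem dst_bdd [CompactSpace M] : ∃ C : ℝ, 0 < C ∧ ∀ m m' : M, F.dst m m' ≤ C := by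
  obtain ⟨C, hC⟩ := (isCompact_range (continuous_dst F)).bddAbove
  exact ⟨max C 1, lt_max_of_lt_right one_pos, fun m m' =>
    (hC ⟨(m, m'), rfl⟩).trans (le_max_left _ _)⟩

theorem isCompact_halfc [CompactSpace M] (c : F.κ) :
    IsCompact ((F.φ c).symm '' Metric.closedBall (F.z c) (F.r c / 2)) := by
  refine (isCompact_closedBall _ _).image_of_continuousOn ?_
  refine (F.φ c).continuousOn_symm.mono ?_
  exact (Metric.closedBall_subset_closedBall (by linarith [F.r_pos c])).trans (F.ball c)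

theorem mem_halfc {c : F.κ} {m : M} (h1 : m ∈ (F.φ c).source)
    (h2 : F.φ c m ∈ Metric.closedBall (F.z c) (F.r c / 2)) :
    m ∈ (F.φ c).symm '' Metric.closedBall (F.z c) (F.r c / 2) :=
  ⟨F.φ c m, h2, (F.φ c).left_inv h1⟩

theorem halfc_sub (c : F.κ) :
    (F.φ c).symm '' Metric.closedBall (F.z c) (F.r c / 2) ⊆ full F c := by
  rintro _ ⟨w, hw, rfl⟩
  have h1 : w ∈ (F.φ c).target :=
    F.ball c (Metric.closedBall_subset_closedBall (by linarith [F.r_pos c]) hw)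
  refine ⟨(F.φ c).map_target h1, ?_⟩
  rw [Set.mem_preimage, (F.φ c).right_inv h1]
  exact Metric.closedBall_subset_ball (by linarith [F.r_pos c]) hw

/-- Points close to a point of the closed half ball of the chart `c` are in its ball. -/
theorem exists_full' [CompactSpace M] (c : F.κ) : ∃ δ : ℝ, 0 < δ ∧ ∀ m m' : M,
    m ∈ (F.φ c).source → F.φ c m ∈ Metric.closedBall (F.z c) (F.r c / 2) →
    F.dst m m' ≤ δ → m' ∈ full F c := by
  have hK : IsCompact (((F.φ c).symm '' Metric.closedBall (F.z c) (F.r c / 2)) ×ˢ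
      (full F c)ᶜ) := (isCompact_halfc F c).prod (isOpen_full F c).isClosed_compl.isCompact
  rcases Set.eq_empty_or_nonempty (((F.φ c).symm '' Metric.closedBall (F.z c) (F.r c / 2)) ×ˢ
      (full F c)ᶜ) with hE | hE
  · refine ⟨1, one_pos, fun m m' h1 h2 _ => ?_⟩
    by_contra h3
    have : (m, m') ∈ ((F.φ c).symm '' Metric.closedBall (F.z c) (F.r c / 2)) ×ˢ
      (full F c)ᶜ := ⟨mem_halfc F h1 h2, h3⟩
    rw [hE] at this
    exact this
  · obtain ⟨q, hq, hmin⟩ := hK.exists_isMinOn hE (continuous_dst F).continuousOn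
    have hne : q.1 ≠ q.2 := fun h => hq.2 (h ▸ halfc_sub F c hq.1)
    have hpos := dst_pos F hne
    refine ⟨F.dst q.1 q.2 / 2, half_pos hpos, fun m m' h1 h2 h3 => ?_⟩
    by_contra h4
    have h5 : F.dst q.1 q.2 ≤ F.dst m m' :=
      hmin (show (m, m') ∈ ((F.φ c).symm '' Metric.closedBall (F.z c) (F.r c / 2)) ×ˢ
        (full F c)ᶜ from ⟨mem_halfc F h1 h2, h4⟩)
    linarith

theorem exists_full [CompactSpace M] : ∃ δ : ℝ, 0 < δ ∧ ∀ m m' : M, F.dst m m' ≤ δ →
    m' ∈ full F (ch F m) := by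
  choose δ hδ h using exists_full' F
  rcases isEmpty_or_nonempty M with hM | ⟨⟨m₀⟩⟩
  · exact ⟨1, one_pos, fun m => (hM.false m).elim⟩
  have hne : (Finset.univ : Finset F.κ).Nonempty := ⟨ch F m₀, Finset.mem_univ _⟩
  refine ⟨Finset.univ.inf' hne δ, ?_, fun m m' hm => ?_⟩
  · exact (Finset.lt_inf'_iff hne).2 fun c _ => hδ c
  · refine h (ch F m) m m' (ch_src F m) (Metric.ball_subset_closedBall (ch_ball F m))
      (hm.trans (Finset.inf'_le _ (Finset.mem_univ _)))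

theorem norm_le_sqrt {d : ℕ} (v : Eu d) {m : ℝ} (hm : 0 ≤ m) (h : ∀ k, |v k| ≤ m) :
    ‖v‖ ≤ √(d : ℝ) * m := by
  rw [EuclideanSpace.norm_eq]
  have h1 : ∑ k, ‖v k‖ ^ 2 ≤ (d : ℝ) * m ^ 2 := by
    calc ∑ k, ‖v k‖ ^ 2 ≤ ∑ _k : Fin d, m ^ 2 := by
          apply Finset.sum_le_sum
          intro k _
          rw [Real.norm_eq_abs]
          exact pow_le_pow_left₀ (abs_nonneg _) (h k) 2
      _ = (d : ℝ) * m ^ 2 := by simp
  calc √(∑ k, ‖v k‖ ^ 2) ≤ √((d : ℝ) * m ^ 2) := Real.sqrt_le_sqrt h1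
    _ = √(d : ℝ) * m := by
      rw [Real.sqrt_mul (Nat.cast_nonneg d), Real.sqrt_sq hm]

theorem chart_le {c : F.κ} {m m' : M} (h : m ∈ full F c) (h' : m' ∈ full F c) :
    ‖F.φ c m' - F.φ c m‖ ≤ √(d : ℝ) * F.dst m m' := by
  refine norm_le_sqrt _ (dst_nonneg F m m') fun k => ?_
  have h1 : (F.φ c m' - F.φ c m) k = (F.ψ (F.co c k)).1 m' - (F.ψ (F.co c k)).1 m := by
    rw [F.ψ_co c k m h.1 (Metric.ball_subset_closedBall h.2),
      F.ψ_co c k m' h'.1 (Metric.ball_subset_closedBall h'.2)]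
    rfl
  rw [h1, abs_sub_comm]
  exact dst_ψ F m m' _

theorem u_le {m m' : M} (h : m' ∈ full F (ch F m)) :
    ‖u F m m'‖ ≤ √(d : ℝ) * F.dst m m' := chart_le F (ch_full F m) h

theorem le_chart : ∃ C : ℝ, 0 ≤ C ∧ ∀ (c : F.κ) (m m' : M), m ∈ full F c → m' ∈ full F c →
    F.dst m m' ≤ C * ‖F.φ c m' - F.φ c m‖ := by
  choose C hC0 hC using fun (c : F.κ) (j : F.ι) => F.lipschitz (F.ψ j) c
  have hS : ∀ c j, C c j ≤ ∑ c, ∑ j, C c j := fun c j =>
    (Finset.single_le_sum (f := fun j => C c j) (fun j _ => hC0 c j) (Finset.mem_univ j)).trans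
      (Finset.single_le_sum (f := fun c => ∑ j, C c j)
        (fun c _ => Finset.sum_nonneg fun j _ => hC0 c j) (Finset.mem_univ c))
  have hS0 : 0 ≤ ∑ c, ∑ j, C c j :=
    Finset.sum_nonneg fun c _ => Finset.sum_nonneg fun j _ => hC0 c j
  refine ⟨∑ c, ∑ j, C c j, hS0, fun c m m' h h' => ?_⟩
  refine dst_le F (mul_nonneg hS0 (norm_nonneg _)) fun j => ?_
  have h1 := hC c j _ (Metric.ball_subset_closedBall h.2) _ (Metric.ball_subset_closedBall h'.2)
  rw [(F.φ c).left_inv h.1, (F.φ c).left_inv h'.1, abs_sub_comm] at h1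
  exact h1.trans (mul_le_mul_of_nonneg_right (hS c j) (norm_nonneg _))

/-- Comparison of the distance with the coordinates. -/
theorem exists_u_bound [CompactSpace M] : ∃ δ C : ℝ, 0 < δ ∧ 0 < C ∧ ∀ m m' : M,
    F.dst m m' ≤ δ → m' ∈ full F (ch F m) ∧ ‖u F m m'‖ ≤ C * F.dst m m' ∧
      F.dst m m' ≤ C * ‖u F m m'‖ := by
  obtain ⟨δ, hδ, h⟩ := exists_full F
  obtain ⟨C, hC, h'⟩ := le_chart F
  refine ⟨δ, max (√(d : ℝ)) C + 1, hδ, ?_, fun m m' hm => ?_⟩
  · have := le_max_right (√(d : ℝ)) C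
    linarith
  have h1 := h m m' hm
  refine ⟨h1, (u_le F h1).trans (mul_le_mul_of_nonneg_right ?_ (dst_nonneg F _ _)),
    (h' _ m m' (ch_full F m) h1).trans (mul_le_mul_of_nonneg_right ?_ (norm_nonneg _))⟩
  · have := le_max_left (√(d : ℝ)) C
    linarith
  · have := le_max_right (√(d : ℝ)) C
    linarith

end Pool.Agent.H73.LX
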