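import Mathlib
import Pool.Agent.H73.LX.Ch2

/-!
MP_d9606f_gt, full theorem: local expressions of maps in the charts (helper73).

`Om F g c c'` is open, `lo F g c c'` is smooth on it, `Kc F g c c'` is a compact subset; the chosen
coordinates of `m` are in `Kc F g (ch m) (ch (g m))`; `u_map`: `u (g m) (g m')` is the increment of
the local expression.  `lo_fderiv_coord`, `ψ_fderiv`: derivatives of the local expression and the
Jacobi matrix.
-/

open MeasureTheory Filter
open scoped Topology ContDiff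

namespace Pool.Agent.H73.LX

open Pool.Agent.H73.PZ

variable {d : ℕ} {M : Type} [TopologicalSpace M] (F : Fr d M)

include F in
theorem t2 : T2Space M := by
  refine ⟨fun x y hxy => ?_⟩
  obtain ⟨j, hj⟩ : ∃ j, (F.ψ j).1 x ≠ (F.ψ j).1 y := by
    by_contra h
    push Not at h
    exact hxy (F.sep _ _ h)
  obtain ⟨U, V, hU, hV, hx, hy, hUV⟩ := t2_separation hj
  exact ⟨(F.ψ j).1 ⁻¹' U, (F.ψ j).1 ⁻¹' V, hU.preimage (F.cont _), hV.preimage (F.cont _), hx, hy,
    hUV.preimage _⟩

theorem ball_sub_target (c : F.κ) : Metric.ball (F.z c) (F.r c) ⊆ (F.φ c).target :=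
  Metric.ball_subset_closedBall.trans (F.ball c)

theorem isOpen_Om {g : M → M} (hg : Continuous g) (c c' : F.κ) : IsOpen (Om F g c c') := by
  have h1 : ContinuousOn (fun w => g ((F.φ c).symm w)) (Metric.ball (F.z c) (F.r c)) :=
    hg.comp_continuousOn ((F.φ c).continuousOn_symm.mono (ball_sub_target F c))
  exact h1.isOpen_inter_preimage Metric.isOpen_ball (isOpen_full F c')

theorem isCompact_Kc {g : M → M} (hg : Continuous g) (c c' : F.κ) : IsCompact (Kc F g c c') := by
  have _ := t2 F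
  have hb : Metric.closedBall (F.z c) (F.r c / 2) ⊆ (F.φ c).target :=
    (Metric.closedBall_subset_closedBall (by linarith [F.r_pos c])).trans (F.ball c)
  have h1 : ContinuousOn (fun w => g ((F.φ c).symm w)) (Metric.closedBall (F.z c) (F.r c / 2)) :=
    hg.comp_continuousOn ((F.φ c).continuousOn_symm.mono hb)
  have hcl : IsClosed {m : M | m ∈ (F.φ c').source ∧
      F.φ c' m ∈ Metric.closedBall (F.z c') (F.r c' / 2)} := by
    have hb' : Metric.closedBall (F.z c') (F.r c' / 2) ⊆ (F.φ c').target :=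
      (Metric.closedBall_subset_closedBall (by linarith [F.r_pos c'])).trans (F.ball c')
    have e : {m : M | m ∈ (F.φ c').source ∧
        F.φ c' m ∈ Metric.closedBall (F.z c') (F.r c' / 2)} =
        (F.φ c').symm '' Metric.closedBall (F.z c') (F.r c' / 2) := by
      ext m
      constructor
      · rintro ⟨h, h'⟩
        exact mem_halfc F h h'
      · rintro ⟨w, hw, rfl⟩
        exact ⟨(F.φ c').map_target (hb' hw), by
          rw [(F.φ c').right_inv (hb' hw)]
          exact hw⟩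
    rw [e]
    exact ((isCompact_closedBall _ _).image_of_continuousOn
      ((F.φ c').continuousOn_symm.mono hb')).isClosed
  have h2 := h1.preimage_isClosed_of_isClosed Metric.isClosed_closedBall hcl
  exact (isCompact_closedBall (F.z c) (F.r c / 2)).of_isClosed_subset h2 Set.inter_subset_left

theorem Kc_sub (g : M → M) (c c' : F.κ) : Kc F g c c' ⊆ Om F g c c' := by
  rintro w ⟨h1, h2, h3⟩
  exact ⟨Metric.closedBall_subset_ball (by linarith [F.r_pos c]) h1, h2,
    Metric.closedBall_subset_ball (by linarith [F.r_pos c']) h3⟩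

theorem mem_Kc (g : M → M) (m : M) :
    F.φ (ch F m) m ∈ Kc F g (ch F m) (ch F (g m)) := by
  refine ⟨Metric.ball_subset_closedBall (ch_ball F m), ?_, ?_⟩
  · rw [(F.φ (ch F m)).left_inv (ch_src F m)]
    exact ch_src F (g m)
  · rw [(F.φ (ch F m)).left_inv (ch_src F m)]
    exact Metric.ball_subset_closedBall (ch_ball F (g m))

theorem lo_apply (g : M → M) (c c' : F.κ) {m : M} (h : m ∈ (F.φ c).source) :
    lo F g c c' (F.φ c m) = F.φ c' (g m) := by
  unfold lo
  rw [(F.φ c).left_inv h]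

theorem u_map (g : M → M) {m m' : M} (h : m' ∈ (F.φ (ch F m)).source) :
    u F (g m) (g m') = lo F g (ch F m) (ch F (g m)) (F.φ (ch F m) m + u F m m') -
      lo F g (ch F m) (ch F (g m)) (F.φ (ch F m) m) := by
  have e : F.φ (ch F m) m + u F m m' = F.φ (ch F m) m' := by
    unfold u
    exact add_sub_cancel _ _
  rw [e, lo_apply F g _ _ h, lo_apply F g _ _ (ch_src F m)]
  rfl

variable {F} in
private theorem lo_near {g : M → M} (hg : Continuous g) {c c' : F.κ} {w : Eu d}
    (hw : w ∈ Om F g c c') : ∀ᶠ w' in 𝓝 w, w' ∈ Om F g c c' :=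
  (isOpen_Om F hg c c').mem_nhds hw

theorem lo_contDiffOn {g : M → M} (hA : ∀ f ∈ F.A, f ∘ g ∈ F.A)
    (c c' : F.κ) : ContDiffOn ℝ ∞ (lo F g c c') (Om F g c c') := by
  rw [contDiffOn_euclidean]
  intro k
  have h1 := (F.smooth ⟨(F.ψ (F.co c' k)).1 ∘ g, hA _ (F.ψ (F.co c' k)).2⟩ c).mono
    (show Om F g c c' ⊆ (F.φ c).target from fun w hw => ball_sub_target F c hw.1)
  refine h1.congr fun w hw => ?_
  exact (F.ψ_co c' k _ hw.2.1 (Metric.ball_subset_closedBall hw.2.2)).symm

/-- The coordinates of the derivative of the local expression. -/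
theorem lo_fderiv_coord {g : M → M} (hg : Continuous g) (hA : ∀ f ∈ F.A, f ∘ g ∈ F.A)
    {c c' : F.κ} {w : Eu d} (hw : w ∈ Om F g c c') (k : Fin d) (v : Eu d) :
    (fderiv ℝ (lo F g c c') w v) k =
      ∑ l, fderiv ℝ ((F.ψ l).1 ∘ (F.φ c).symm) w v *
        Jg F g hA ((F.φ c).symm w) l (F.co c' k) := by
  have hwt : w ∈ (F.φ c).target := ball_sub_target F c hw.1
  have hev : (fun w' => (lo F g c c' w') k) =ᶠ[𝓝 w]
      (⟨(F.ψ (F.co c' k)).1 ∘ g, hA _ (F.ψ (F.co c' k)).2⟩ : F.A).1 ∘ (F.φ c).symm := by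
    filter_upwards [lo_near hg hw] with w' hw'
    exact (F.ψ_co c' k _ hw'.2.1 (Metric.ball_subset_closedBall hw'.2.2)).symm
  have hD : DifferentiableAt ℝ (lo F g c c') w :=
    ((lo_contDiffOn F hA c c').contDiffAt ((isOpen_Om F hg c c').mem_nhds hw)).differentiableAt
      (by simp)
  have h1 : HasFDerivAt (fun w' => (lo F g c c' w') k)
      ((EuclideanSpace.proj (𝕜 := ℝ) (ι := Fin d) k).comp (fderiv ℝ (lo F g c c') w)) w :=
    (EuclideanSpace.proj (𝕜 := ℝ) (ι := Fin d) k).hasFDerivAt.comp w hD.hasFDerivAt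
  have h2 := h1.fderiv
  rw [hev.fderiv_eq] at h2
  have h3 := F.LF c ⟨(F.ψ (F.co c' k)).1 ∘ g, hA _ (F.ψ (F.co c' k)).2⟩ w hwt v
  rw [h2] at h3
  exact h3

/-- The derivative of `ψ j ∘ g` in the chart. -/
theorem ψ_fderiv {g : M → M} (hg : Continuous g) (hA : ∀ f ∈ F.A, f ∘ g ∈ F.A)
    {c c' : F.κ} {w : Eu d} (hw : w ∈ Om F g c c') (j : F.ι) (v : Eu d) :
    fderiv ℝ (((F.ψ j).1 ∘ g) ∘ (F.φ c).symm) w v =
      fderiv ℝ ((F.ψ j).1 ∘ (F.φ c').symm) (lo F g c c' w) (fderiv ℝ (lo F g c c') w v) := by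
  have hev : ((F.ψ j).1 ∘ g) ∘ (F.φ c).symm =ᶠ[𝓝 w]
      ((F.ψ j).1 ∘ (F.φ c').symm) ∘ lo F g c c' := by
    filter_upwards [lo_near hg hw] with w' hw'
    show (F.ψ j).1 (g ((F.φ c).symm w')) = (F.ψ j).1 ((F.φ c').symm (F.φ c' (g ((F.φ c).symm w'))))
    rw [(F.φ c').left_inv hw'.2.1]
  have hD : DifferentiableAt ℝ (lo F g c c') w :=
    ((lo_contDiffOn F hA c c').contDiffAt ((isOpen_Om F hg c c').mem_nhds hw)).differentiableAt
      (by simp)
  have hlt : lo F g c c' w ∈ (F.φ c').target := ball_sub_target F c' hw.2.2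
  have hD' : DifferentiableAt ℝ ((F.ψ j).1 ∘ (F.φ c').symm) (lo F g c c' w) :=
    ((F.smooth (F.ψ j) c').contDiffAt ((F.φ c').open_target.mem_nhds hlt)).differentiableAt
      (by simp)
  rw [hev.fderiv_eq, fderiv_comp w hD' hD]
  rfl

end Pool.Agent.H73.LX
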