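import Mathlib
import Pool.Agent.H73.LX.Lo

/-!
MP_d9606f_gt, full theorem: Lipschitz maps, points with given coordinates, measurability of piecewise
continuous functions (helper73).
-/

open MeasureTheory Filter
open scoped Topology ContDiff

namespace Pool.Agent.H73.LX

open Pool.Agent.H73.PZ

variable {d : ℕ} {M : Type} [TopologicalSpace M] (F : Fr d M)

/-- Smooth maps are Lipschitz. -/
theorem map_lip [CompactSpace M] {g : M → M} (hA : ∀ f ∈ F.A, f ∘ g ∈ F.A) :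
    ∃ C : ℝ, 0 < C ∧ ∀ m m' : M, F.dst (g m) (g m') ≤ C * F.dst m m' := by
  obtain ⟨L, δ, hL, hδ, hlip⟩ := F.lip
  obtain ⟨B, hB0, hB⟩ := dst_bdd F
  choose Λ hΛ0 hΛ using fun (i j : F.ι) =>
    F.bdd (F.X i ⟨(F.ψ j).1 ∘ g, hA _ (F.ψ j).2⟩)
  have hS : ∀ i j, Λ i j ≤ ∑ i, ∑ j, Λ i j := fun i j =>
    (Finset.single_le_sum (f := fun j => Λ i j) (fun j _ => hΛ0 i j) (Finset.mem_univ j)).trans
      (Finset.single_le_sum (f := fun i => ∑ j, Λ i j)
        (fun i _ => Finset.sum_nonneg fun j _ => hΛ0 i j) (Finset.mem_univ i))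
  have hS0 : 0 ≤ ∑ i, ∑ j, Λ i j :=
    Finset.sum_nonneg fun i _ => Finset.sum_nonneg fun j _ => hΛ0 i j
  have hC : 0 < L * (∑ i, ∑ j, Λ i j) + B / δ := by
    have := div_pos hB0 hδ
    have := mul_nonneg hL hS0
    linarith
  refine ⟨L * (∑ i, ∑ j, Λ i j) + B / δ, hC, fun m m' => ?_⟩
  by_cases h : F.dst m m' ≤ δ
  · refine dst_le F (mul_nonneg hC.le (dst_nonneg F m m')) fun j => ?_
    have h1 := hlip ⟨(F.ψ j).1 ∘ g, hA _ (F.ψ j).2⟩ (∑ i, ∑ j, Λ i j)
      (fun i x => (hΛ i j x).trans (hS i j)) m m' h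
    have h2 : 0 ≤ B / δ * F.dst m m' := mul_nonneg (div_pos hB0 hδ).le (dst_nonneg F m m')
    calc _ ≤ L * (∑ i, ∑ j, Λ i j) * F.dst m m' := h1
      _ ≤ _ := by linarith [add_mul (L * (∑ i, ∑ j, Λ i j)) (B / δ) (F.dst m m')]
  · rw [not_le] at h
    refine (hB _ _).trans ?_
    have h1 : B ≤ B / δ * F.dst m m' := by
      rw [div_mul_eq_mul_div, le_div_iff₀ hδ]
      exact mul_le_mul_of_nonneg_left h.le hB0.le
    have h2 : 0 ≤ L * (∑ i, ∑ j, Λ i j) * F.dst m m' :=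
      mul_nonneg (mul_nonneg hL hS0) (dst_nonneg F m m')
    linarith [add_mul (L * (∑ i, ∑ j, Λ i j)) (B / δ) (F.dst m m')]

/-- Every small vector is a difference of coordinates. -/
theorem exists_pt (m : M) : ∃ δ C : ℝ, 0 < δ ∧ 0 ≤ C ∧ ∀ v : Eu d, ‖v‖ ≤ δ →
    ∃ m' : M, m' ∈ full F (ch F m) ∧ u F m m' = v ∧ F.dst m m' ≤ C * ‖v‖ := by
  obtain ⟨C, hC, h⟩ := le_chart F
  refine ⟨F.r (ch F m) / 4, C, by linarith [F.r_pos (ch F m)], hC, fun v hv => ?_⟩
  have h1 := ch_ball F m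
  rw [Metric.mem_ball, dist_eq_norm] at h1
  have h2 : F.φ (ch F m) m + v ∈ Metric.ball (F.z (ch F m)) (F.r (ch F m)) := by
    rw [Metric.mem_ball, dist_eq_norm]
    have e : F.φ (ch F m) m + v - F.z (ch F m) = (F.φ (ch F m) m - F.z (ch F m)) + v := by abel
    rw [e]
    have := norm_add_le (F.φ (ch F m) m - F.z (ch F m)) v
    have := F.r_pos (ch F m)
    linarith
  have h3 : F.φ (ch F m) m + v ∈ (F.φ (ch F m)).target := ball_sub_target F _ h2
  have h4 : (F.φ (ch F m)).symm (F.φ (ch F m) m + v) ∈ full F (ch F m) := by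
    refine ⟨(F.φ (ch F m)).map_target h3, ?_⟩
    rw [Set.mem_preimage, (F.φ (ch F m)).right_inv h3]
    exact h2
  have h5 : u F m ((F.φ (ch F m)).symm (F.φ (ch F m) m + v)) = v := by
    unfold u
    rw [(F.φ (ch F m)).right_inv h3]
    exact add_sub_cancel_left _ _
  refine ⟨_, h4, h5, ?_⟩
  have h6 := h _ m _ (ch_full F m) h4
  change _ ≤ C * ‖u F m ((F.φ (ch F m)).symm (F.φ (ch F m) m + v))‖ at h6
  rwa [h5] at h6

/-- Piecewise continuous functions are measurable. -/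
theorem meas_piece {M : Type} [TopologicalSpace M] [MeasurableSpace M] [BorelSpace M] {κ : Type}
    [Countable κ] (E : κ → Set M)
    (hE : ∀ i, MeasurableSet (E i)) (hcov : ∀ m, ∃ i, m ∈ E i) (f : M → ℝ) (fi : κ → M → ℝ)
    (h : ∀ i, ∀ m ∈ E i, f m = fi i m) (hc : ∀ i, ContinuousOn (fi i) (E i)) : Measurable f := by
  refine measurable_of_isOpen fun s hs => ?_
  have e : f ⁻¹' s = ⋃ i, (E i ∩ fi i ⁻¹' s) := by
    ext m
    rw [Set.mem_iUnion]
    constructor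
    · intro hm
      obtain ⟨i, hi⟩ := hcov m
      refine ⟨i, hi, ?_⟩
      rw [Set.mem_preimage, ← h i m hi]
      exact hm
    · rintro ⟨i, hi, hm⟩
      rw [Set.mem_preimage, ← h i m hi] at hm
      exact hm
  rw [e]
  refine MeasurableSet.iUnion fun i => ?_
  obtain ⟨t, ht, he⟩ := (continuousOn_iff'.1 (hc i)) s hs
  rw [Set.inter_comm, he]
  exact ht.measurableSet.inter (hE i)

/-- The chart coordinates are continuous on the set where the chart is chosen. -/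
theorem continuousOn_chart (c : F.κ) : ContinuousOn (F.φ c) {m | ch F m = c} :=
  (F.φ c).continuousOn.mono fun m (hm : ch F m = c) => hm ▸ ch_src F m

end Pool.Agent.H73.LX
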