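import Mathlib
import Pool.Agent.H73.LX.Mp
import Pool.Agent.H23.DM.La1

/-!
MP_d9606f_gt, full theorem: the cocycle of jets in the chosen charts, abstract form (helper73).

`mon : Eu d → ν → ℝ` is the vector of the monomials.  `HasJets mon r Q`: Taylor formula for the
vectors of monomials, uniform on compact sets; `Q` is a property of the matrix of the jet which only
depends on the first derivative.  `JetUniq mon r`: uniqueness of the matrix.
`exists_jets`: the matrices `D γ m` of the action in the chosen charts.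
-/

open MeasureTheory Filter Matrix
open scoped Topology ContDiff

namespace Pool.Agent.H73.LX

open Pool.Agent.H73.PZ Pool.Agent.H23.DM

variable {d : ℕ} {ν : Type} [Fintype ν] [DecidableEq ν]

/-- Taylor formula for the vectors of monomials. -/
def HasJets (mon : Eu d → ν → ℝ) (r : ℕ) (Q : (Eu d →L[ℝ] Eu d) → Matrix ν ν ℝ → Prop) : Prop :=
  ∀ (U K : Set (Eu d)) (f : Eu d → Eu d), IsOpen U → IsCompact K → K ⊆ U →
    ContDiffOn ℝ ∞ f U → ∃ D : Eu d → Matrix ν ν ℝ, (∀ a b, ContinuousOn (fun x => D x a b) K) ∧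
      ∃ C δ : ℝ, 0 < δ ∧ ∀ x ∈ K, Q (fderiv ℝ f x) (D x) ∧ ∀ v : Eu d, ‖v‖ ≤ δ →
        x + v ∈ U ∧ vn (mon (f (x + v) - f x) - D x *ᵥ mon v) ≤ C * ‖v‖ ^ (r + 1)

/-- Uniqueness of the matrix of the jet. -/
def JetUniq (mon : Eu d → ν → ℝ) (r : ℕ) : Prop :=
  ∀ (B : Matrix ν ν ℝ) (C δ : ℝ), 0 < δ →
    (∀ v : Eu d, ‖v‖ ≤ δ → vn (B *ᵥ mon v) ≤ C * ‖v‖ ^ (r + 1)) → B = 0

variable {M : Type} [TopologicalSpace M] [MeasurableSpace M]

/-- The cocycle of the jets in the chosen charts. -/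
structure Jets (F : Fr d M) (Γ : Type) [Group Γ] [MulAction Γ M] (mon : Eu d → ν → ℝ) (r : ℕ)
    (Q : (Eu d →L[ℝ] Eu d) → Matrix ν ν ℝ → Prop) where
  /-- the matrices -/
  D : Γ → M → Matrix ν ν ℝ
  meas : ∀ γ, MM (D γ)
  bdd : ∀ γ, ∃ C : ℝ, ∀ m, fn (D γ m) ≤ C
  mul : ∀ γ γ' m, D (γ * γ') m = D γ (γ' • m) * D γ' m
  one : ∀ m, D 1 m = 1
  jet : ∀ γ, ∃ δ C : ℝ, 0 < δ ∧ 0 ≤ C ∧ ∀ m m' : M, F.dst m m' ≤ δ →
    vn (mon (u F (γ • m) (γ • m')) - D γ m *ᵥ mon (u F m m')) ≤ C * F.dst m m' ^ (r + 1)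
  Qp : ∀ γ m, Q (fderiv ℝ (lo F (fun y => γ • y) (ch F m) (ch F (γ • m))) (F.φ (ch F m) m)) (D γ m)

variable (F : Fr d M) {Γ : Type} [Group Γ] [MulAction Γ M]

section

variable {mon : Eu d → ν → ℝ} {r : ℕ} {Q : (Eu d →L[ℝ] Eu d) → Matrix ν ν ℝ → Prop}

omit [DecidableEq ν] in
/-- The jet matrices of one map. -/
theorem exists_jet_map [CompactSpace M] [BorelSpace M] (hJ : HasJets mon r Q) {g : M → M}
    (hg : Continuous g) (hA : ∀ f ∈ F.A, f ∘ g ∈ F.A) :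
    ∃ D : M → Matrix ν ν ℝ, MM D ∧ (∃ C : ℝ, ∀ m, fn (D m) ≤ C) ∧
      (∃ δ C : ℝ, 0 < δ ∧ 0 ≤ C ∧ ∀ m m' : M, F.dst m m' ≤ δ →
        vn (mon (u F (g m) (g m')) - D m *ᵥ mon (u F m m')) ≤ C * F.dst m m' ^ (r + 1)) ∧
      ∀ m, Q (fderiv ℝ (lo F g (ch F m) (ch F (g m))) (F.φ (ch F m) m)) (D m) := by
  classical
  choose D hD C δ hδ h using fun (c c' : F.κ) =>
    hJ (Om F g c c') (Kc F g c c') (lo F g c c') (isOpen_Om F hg c c') (isCompact_Kc F hg c c')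
      (Kc_sub F g c c') (lo_contDiffOn F hA c c')
  have hcont : ∀ (c c' : F.κ) (a b : ν),
      ContinuousOn (fun m => D c c' (F.φ c m) a b) {m | ch F m = c ∧ ch F (g m) = c'} := by
    intro c c' a b
    refine (hD c c' a b).comp ((continuousOn_chart F c).mono fun m hm => hm.1) ?_
    rintro m ⟨rfl, rfl⟩
    exact mem_Kc F g m
  have hmE : ∀ c c' : F.κ, MeasurableSet {m | ch F m = c ∧ ch F (g m) = c'} := fun c c' =>
    (measurableSet_ch F c).inter (hg.measurable (measurableSet_ch F c'))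
  refine ⟨fun m => D (ch F m) (ch F (g m)) (F.φ (ch F m) m), fun a b => ?_, ?_, ?_, fun m => ?_⟩
  · have : Countable (F.κ × F.κ) := Finite.to_countable
    refine meas_piece (κ := F.κ × F.κ) (fun i => {m | ch F m = i.1 ∧ ch F (g m) = i.2})
      (fun i => hmE i.1 i.2) (fun m => ⟨(ch F m, ch F (g m)), rfl, rfl⟩) _
      (fun i m => D i.1 i.2 (F.φ i.1 m) a b) ?_ (fun i => hcont i.1 i.2 a b)
    rintro ⟨c, c'⟩ m ⟨h1, h2⟩
    have h1' : ch F m = c := h1
    have h2' : ch F (g m) = c' := h2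
    subst h1'
    subst h2'
    rfl
  · -- bound
    have hb : ∀ (c c' : F.κ) (a b : ν), ∃ B : ℝ, 0 ≤ B ∧ ∀ x ∈ Kc F g c c', |D c c' x a b| ≤ B := by
      intro c c' a b
      obtain ⟨B, hB⟩ := (isCompact_Kc F hg c c').exists_bound_of_continuousOn (hD c c' a b)
      exact ⟨max B 0, le_max_right _ _, fun x hx => (hB x hx).trans (le_max_left _ _)⟩
    choose B hB0 hB using hb
    refine ⟨Fintype.card ν * ∑ c, ∑ c', ∑ a, ∑ b, B c c' a b, fun m => ?_⟩
    refine fn_le_of_entries ?_ fun a b => ?_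
    · exact Finset.sum_nonneg fun c _ => Finset.sum_nonneg fun c' _ => Finset.sum_nonneg fun a _ =>
        Finset.sum_nonneg fun b _ => hB0 c c' a b
    · refine (hB _ _ a b _ (mem_Kc F g m)).trans ?_
      refine (Finset.single_le_sum (f := fun b => B (ch F m) (ch F (g m)) a b)
        (fun b _ => hB0 _ _ a b) (Finset.mem_univ b)).trans ?_
      refine (Finset.single_le_sum (f := fun a => ∑ b, B (ch F m) (ch F (g m)) a b)
        (fun a _ => Finset.sum_nonneg fun b _ => hB0 _ _ a b) (Finset.mem_univ a)).trans ?_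
      refine (Finset.single_le_sum (f := fun c' => ∑ a, ∑ b, B (ch F m) c' a b)
        (fun c' _ => Finset.sum_nonneg fun a _ => Finset.sum_nonneg fun b _ => hB0 _ _ a b)
        (Finset.mem_univ (ch F (g m)))).trans ?_
      exact Finset.single_le_sum (f := fun c => ∑ c', ∑ a, ∑ b, B c c' a b)
        (fun c _ => Finset.sum_nonneg fun c' _ => Finset.sum_nonneg fun a _ =>
          Finset.sum_nonneg fun b _ => hB0 c c' a b) (Finset.mem_univ (ch F m))
  · -- Taylor estimate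
    obtain ⟨δ₀, C₀, hδ₀, hC₀, hu⟩ := exists_u_bound F
    rcases isEmpty_or_nonempty M with hM | ⟨⟨m₀⟩⟩
    · exact ⟨1, 0, one_pos, le_rfl, fun m => (hM.false m).elim⟩
    have hne : (Finset.univ : Finset (F.κ × F.κ)).Nonempty :=
      ⟨(ch F m₀, ch F m₀), Finset.mem_univ _⟩
    have hδ' : 0 < Finset.univ.inf' hne fun i : F.κ × F.κ => δ i.1 i.2 :=
      (Finset.lt_inf'_iff hne).2 fun i _ => hδ i.1 i.2
    have hSC : ∀ c c', |C c c'| ≤ ∑ c, ∑ c', |C c c'| := fun c c' =>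
      (Finset.single_le_sum (f := fun c' => |C c c'|) (fun _ _ => abs_nonneg _)
        (Finset.mem_univ c')).trans
        (Finset.single_le_sum (f := fun c => ∑ c', |C c c'|)
          (fun _ _ => Finset.sum_nonneg fun _ _ => abs_nonneg _) (Finset.mem_univ c))
    have hSC0 : 0 ≤ ∑ c, ∑ c', |C c c'| :=
      Finset.sum_nonneg fun _ _ => Finset.sum_nonneg fun _ _ => abs_nonneg _
    refine ⟨min δ₀ ((Finset.univ.inf' hne fun i : F.κ × F.κ => δ i.1 i.2) / C₀),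
      (∑ c, ∑ c', |C c c'|) * C₀ ^ (r + 1), lt_min hδ₀ (div_pos hδ' hC₀),
      mul_nonneg hSC0 (by positivity), fun m m' hm => ?_⟩
    have h1 := hu m m' (hm.trans (min_le_left _ _))
    have h2 : ‖u F m m'‖ ≤ δ (ch F m) (ch F (g m)) := by
      refine h1.2.1.trans ?_
      have h3 := hm.trans (min_le_right _ _)
      rw [le_div_iff₀ hC₀] at h3
      rw [mul_comm]
      exact h3.trans (Finset.inf'_le (fun i : F.κ × F.κ => δ i.1 i.2)
        (Finset.mem_univ (ch F m, ch F (g m))))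
    have h4 := ((h _ _ _ (mem_Kc F g m)).2 _ h2).2
    rw [← u_map F g h1.1.1] at h4
    refine h4.trans ?_
    calc C (ch F m) (ch F (g m)) * ‖u F m m'‖ ^ (r + 1)
        ≤ (∑ c, ∑ c', |C c c'|) * (C₀ * F.dst m m') ^ (r + 1) := by
          refine mul_le_mul ((le_abs_self _).trans (hSC _ _)) ?_ (by positivity) hSC0
          exact pow_le_pow_left₀ (norm_nonneg _) h1.2.1 _
      _ = _ := by rw [mul_pow]; ring
  · exact (h _ _ _ (mem_Kc F g m)).1

omit [DecidableEq ν] [MeasurableSpace M] in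
/-- Uniqueness at a point. -/
theorem jet_uniq_pt [CompactSpace M] (hU : JetUniq mon r) (m : M) {B B' : Matrix ν ν ℝ}
    {w : M → ν → ℝ} {δ C C' : ℝ} (hδ : 0 < δ)
    (h : ∀ m' : M, F.dst m m' ≤ δ → vn (w m' - B *ᵥ mon (u F m m')) ≤ C * F.dst m m' ^ (r + 1))
    (h' : ∀ m' : M, F.dst m m' ≤ δ → vn (w m' - B' *ᵥ mon (u F m m')) ≤
      C' * F.dst m m' ^ (r + 1)) : B = B' := by
  obtain ⟨δ₁, C₁, hδ₁, hC₁, hp⟩ := exists_pt F m
  rw [← sub_eq_zero]
  refine hU (B - B') ((|C| + |C'|) * (C₁ + 1) ^ (r + 1)) (min δ₁ (δ / (C₁ + 1)))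
    (lt_min hδ₁ (by positivity)) fun v hv => ?_
  obtain ⟨m', -, h2, h3⟩ := hp v (hv.trans (min_le_left _ _))
  have hv0 := norm_nonneg v
  have h4 : F.dst m m' ≤ (C₁ + 1) * ‖v‖ := by nlinarith
  have h5 : F.dst m m' ≤ δ := by
    refine h4.trans ?_
    have := hv.trans (min_le_right _ _)
    rwa [le_div_iff₀ (by positivity), mul_comm] at this
  have e : (B - B') *ᵥ mon v = (w m' - B' *ᵥ mon (u F m m')) - (w m' - B *ᵥ mon (u F m m')) := by
    rw [h2, Matrix.sub_mulVec]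
    abel
  rw [e]
  have h6 : F.dst m m' ^ (r + 1) ≤ (C₁ + 1) ^ (r + 1) * ‖v‖ ^ (r + 1) := by
    rw [← mul_pow]
    exact pow_le_pow_left₀ (dst_nonneg F m m') h4 _
  have h7 : 0 ≤ F.dst m m' ^ (r + 1) := pow_nonneg (dst_nonneg F m m') _
  calc _ ≤ C' * F.dst m m' ^ (r + 1) + C * F.dst m m' ^ (r + 1) :=
        (vn_sub_le _ _).trans (add_le_add (h' m' h5) (h m' h5))
    _ ≤ |C'| * F.dst m m' ^ (r + 1) + |C| * F.dst m m' ^ (r + 1) :=
        add_le_add (mul_le_mul_of_nonneg_right (le_abs_self _) h7)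
          (mul_le_mul_of_nonneg_right (le_abs_self _) h7)
    _ = (|C| + |C'|) * F.dst m m' ^ (r + 1) := by ring
    _ ≤ (|C| + |C'|) * ((C₁ + 1) ^ (r + 1) * ‖v‖ ^ (r + 1)) :=
        mul_le_mul_of_nonneg_left h6 (by positivity)
    _ = _ := by ring

/-- The jets of a smooth action. -/
theorem exists_jets [CompactSpace M] [BorelSpace M] (hJ : HasJets mon r Q) (hU : JetUniq mon r)
    (hc : ∀ γ : Γ, Continuous fun x : M => γ • x)
    (hA : ∀ γ : Γ, ∀ f ∈ F.A, (f ∘ fun x : M => γ • x) ∈ F.A) :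
    Nonempty (Jets F Γ mon r Q) := by
  choose D hmeas hbdd hjet hQ using fun γ : Γ => exists_jet_map F hJ (hc γ) (hA γ)
  refine ⟨⟨D, hmeas, hbdd, fun γ γ' m => ?_, fun m => ?_, hjet, fun γ m => hQ γ m⟩⟩
  · obtain ⟨δ₁, C₁, hδ₁, hC₁, h1⟩ := hjet (γ * γ')
    obtain ⟨δ₂, C₂, hδ₂, hC₂, h2⟩ := hjet γ
    obtain ⟨δ₃, C₃, hδ₃, hC₃, h3⟩ := hjet γ'
    obtain ⟨L, hL, hlip⟩ := map_lip F (hA γ')
    refine jet_uniq_pt F hU m (w := fun m' => mon (u F ((γ * γ') • m) ((γ * γ') • m')))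
      (δ := min δ₁ (min (δ₂ / L) δ₃)) (C := C₁) (C' := C₂ * L ^ (r + 1) + fn (D γ (γ' • m)) * C₃)
      (lt_min hδ₁ (lt_min (div_pos hδ₂ hL) hδ₃)) (fun m' hm' => h1 m m' (hm'.trans (min_le_left _ _)))
      fun m' hm' => ?_
    have h4 : F.dst (γ' • m) (γ' • m') ≤ δ₂ := by
      refine (hlip m m').trans ?_
      have := hm'.trans ((min_le_right _ _).trans (min_le_left _ _))
      rwa [le_div_iff₀ hL, mul_comm] at this
    have h5 := h2 (γ' • m) (γ' • m') h4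
    have h6 := h3 m m' (hm'.trans ((min_le_right _ _).trans (min_le_right _ _)))
    rw [← mul_smul, ← mul_smul] at h5
    have e : mon (u F ((γ * γ') • m) ((γ * γ') • m')) -
        (D γ (γ' • m) * D γ' m) *ᵥ mon (u F m m') =
        (mon (u F ((γ * γ') • m) ((γ * γ') • m')) -
          D γ (γ' • m) *ᵥ mon (u F (γ' • m) (γ' • m'))) +
        D γ (γ' • m) *ᵥ (mon (u F (γ' • m) (γ' • m')) - D γ' m *ᵥ mon (u F m m')) := by
      rw [Matrix.mulVec_sub, Matrix.mulVec_mulVec]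
      abel
    have h7 : 0 ≤ F.dst m m' ^ (r + 1) := pow_nonneg (dst_nonneg F m m') _
    have h8 : F.dst (γ' • m) (γ' • m') ^ (r + 1) ≤ L ^ (r + 1) * F.dst m m' ^ (r + 1) := by
      rw [← mul_pow]
      exact pow_le_pow_left₀ (dst_nonneg F _ _) (hlip m m') _
    simp only [e]
    calc _ ≤ C₂ * F.dst (γ' • m) (γ' • m') ^ (r + 1) +
          fn (D γ (γ' • m)) * (C₃ * F.dst m m' ^ (r + 1)) :=
          (vn_add_le _ _).trans (add_le_add h5 ((vn_mulVec_le _ _).trans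
            (mul_le_mul_of_nonneg_left h6 (fn_nonneg _))))
      _ ≤ C₂ * (L ^ (r + 1) * F.dst m m' ^ (r + 1)) +
          fn (D γ (γ' • m)) * (C₃ * F.dst m m' ^ (r + 1)) :=
          add_le_add (mul_le_mul_of_nonneg_left h8 hC₂) le_rfl
      _ = _ := by ring
  · obtain ⟨δ₁, C₁, hδ₁, hC₁, h1⟩ := hjet 1
    refine jet_uniq_pt F hU m (w := fun m' => mon (u F m m')) (δ := δ₁) (C := C₁) (C' := 0)
      hδ₁ (fun m' hm' => ?_) fun m' _ => ?_
    · have := h1 m m' hm'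
      simpa only [one_smul] using this
    · rw [Matrix.one_mulVec, sub_self, zero_mul]
      have : vn (0 : ν → ℝ) = 0 := vn_eq_zero.2 rfl
      exact this.le

end

end Pool.Agent.H73.LX
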