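import Mathlib
import Pool.Agent.H73.LX.Lo
import Pool.Agent.H23.DM.La1

/-!
MP_d9606f_gt, full theorem: comparison of the Jacobi matrix `Jg F g hA m` (in the frame) with the
derivative `D1 F g m` (in the chosen charts), with a constant that does not depend on `g`, `m`
(helper73).
-/

open MeasureTheory Filter
open scoped Topology ContDiff

namespace Pool.Agent.H73.LX

open Pool.Agent.H73.PZ Pool.Agent.H23.DM

variable {d : ℕ} {M : Type} [TopologicalSpace M] (F : Fr d M)

private theorem Jc_single (k : Fin d) : ‖(EuclideanSpace.single k (1 : ℝ) : Eu d)‖ = 1 := by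
  simp

private theorem Jc_const [CompactSpace M] : ∃ B : ℝ, 0 ≤ B ∧
    (∀ (c : F.κ) (j : F.ι), ∀ w ∈ Metric.closedBall (F.z c) (F.r c),
      ‖fderiv ℝ ((F.ψ j).1 ∘ (F.φ c).symm) w‖ ≤ B) ∧
    ∀ (i j : F.ι) (m : M), |(F.X i (F.ψ j)).1 m| ≤ B := by
  choose C hC0 hC using fun (c : F.κ) (j : F.ι) => F.fderiv_bdd (F.ψ j) c
  choose B hB0 hB using fun (i j : F.ι) => F.bdd (F.X i (F.ψ j))
  have hS : ∀ c j, C c j ≤ ∑ c, ∑ j, C c j := fun c j =>
    (Finset.single_le_sum (f := fun j => C c j) (fun j _ => hC0 c j) (Finset.mem_univ j)).trans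
      (Finset.single_le_sum (f := fun c => ∑ j, C c j)
        (fun c _ => Finset.sum_nonneg fun j _ => hC0 c j) (Finset.mem_univ c))
  have hS0 : 0 ≤ ∑ c, ∑ j, C c j :=
    Finset.sum_nonneg fun c _ => Finset.sum_nonneg fun j _ => hC0 c j
  have hT : ∀ i j, B i j ≤ ∑ i, ∑ j, B i j := fun i j =>
    (Finset.single_le_sum (f := fun j => B i j) (fun j _ => hB0 i j) (Finset.mem_univ j)).trans
      (Finset.single_le_sum (f := fun i => ∑ j, B i j)
        (fun i _ => Finset.sum_nonneg fun j _ => hB0 i j) (Finset.mem_univ i))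
  have hT0 : 0 ≤ ∑ i, ∑ j, B i j :=
    Finset.sum_nonneg fun i _ => Finset.sum_nonneg fun j _ => hB0 i j
  refine ⟨(∑ c, ∑ j, C c j) + ∑ i, ∑ j, B i j, add_nonneg hS0 hT0, fun c j w hw => ?_,
    fun i j m => ?_⟩
  · have := hC c j w hw
    have := hS c j
    linarith
  · have := hB i j m
    have := hT i j
    linarith

private theorem Jc_full {g : M → M} (m : M) :
    F.φ (ch F m) m ∈ Om F g (ch F m) (ch F (g m)) := Kc_sub F g _ _ (mem_Kc F g m)

theorem J_compare [CompactSpace M] : ∃ C : ℝ, 0 < C ∧ ∀ (g : M → M) (hA : ∀ f ∈ F.A, f ∘ g ∈ F.A),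
    Continuous g → ∀ m : M,
      fn (Jg F g hA m) ≤ C * fn (D1 F g m) ∧ fn (D1 F g m) ≤ C * fn (Jg F g hA m) := by
  obtain ⟨B, hB, h1, h2⟩ := Jc_const F
  have hd : (0 : ℝ) ≤ (d : ℝ) := Nat.cast_nonneg d
  have hι : (0 : ℝ) ≤ (Fintype.card F.ι : ℝ) := Nat.cast_nonneg _
  refine ⟨(Fintype.card F.ι : ℝ) * (d * (d * B) * B) +
    d * (Fintype.card F.ι * B) + 1, ?_, fun g hA hg m => ⟨?_, ?_⟩⟩
  · positivity
  · have hw := Jc_full F (g := g) m
    have hlo : lo F g (ch F m) (ch F (g m)) (F.φ (ch F m) m) = F.φ (ch F (g m)) (g m) :=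
      lo_apply F g _ _ (ch_src F m)
    have hcb : F.φ (ch F (g m)) (g m) ∈
        Metric.closedBall (F.z (ch F (g m))) (F.r (ch F (g m))) :=
      Metric.ball_subset_closedBall (ch_full F (g m)).2
    have key : ∀ i j, |Jg F g hA m i j| ≤ d * (d * B) * B * fn (D1 F g m) := by
      intro i j
      unfold Jg
      rw [F.LF2 (ch F m) _ i m (ch_src F m) (ch_full F m).2]
      have hk : ∀ k : Fin d, |fderiv ℝ (((F.ψ j).1 ∘ g) ∘ (F.φ (ch F m)).symm)
          (F.φ (ch F m) m) (EuclideanSpace.single k 1)| ≤ d * B * fn (D1 F g m) := by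
        intro k
        rw [ψ_fderiv F hg hA hw j, hlo]
        have h3 := (fderiv ℝ ((F.ψ j).1 ∘ (F.φ (ch F (g m))).symm)
          (F.φ (ch F (g m)) (g m))).le_opNorm (fderiv ℝ (lo F g (ch F m) (ch F (g m)))
            (F.φ (ch F m) m) (EuclideanSpace.single k 1))
        have h4 : ‖fderiv ℝ (lo F g (ch F m) (ch F (g m)))
            (F.φ (ch F m) m) (EuclideanSpace.single k 1)‖ ≤ d * fn (D1 F g m) := by
          refine (norm_le_sqrt _ (fn_nonneg _) fun l => abs_entry_le_fn (D1 F g m) l k).trans ?_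
          refine mul_le_mul_of_nonneg_right ?_ (fn_nonneg _)
          rcases Nat.eq_zero_or_pos d with h0 | h0
          · subst h0
            simp
          · rw [Real.sqrt_le_left hd]
            have : (1 : ℝ) ≤ d := by exact_mod_cast h0
            nlinarith
        rw [Real.norm_eq_abs] at h3
        refine h3.trans ?_
        calc _ ≤ B * (d * fn (D1 F g m)) :=
              mul_le_mul (h1 _ j _ hcb) h4 (norm_nonneg _) hB
          _ = d * B * fn (D1 F g m) := by ring
      refine (Finset.abs_sum_le_sum_abs _ _).trans ?_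
      calc _ ≤ ∑ _k : Fin d, d * B * fn (D1 F g m) * B := by
            refine Finset.sum_le_sum fun k _ => ?_
            rw [abs_mul]
            exact mul_le_mul (hk k) (h2 _ _ _) (abs_nonneg _)
              (mul_nonneg (mul_nonneg hd hB) (fn_nonneg _))
        _ = d * (d * B) * B * fn (D1 F g m) := by
            rw [Finset.sum_const, Finset.card_univ, Fintype.card_fin, nsmul_eq_mul]
            ring
    refine (fn_le_of_entries (mul_nonneg (by positivity) (fn_nonneg _)) key).trans ?_
    have h0 := fn_nonneg (D1 F g m)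
    have h5 : 0 ≤ (d * (Fintype.card F.ι * B) + 1) * fn (D1 F g m) :=
      mul_nonneg (by positivity) h0
    nlinarith
  · have hw := Jc_full F (g := g) m
    have hinv : (F.φ (ch F m)).symm (F.φ (ch F m) m) = m := (F.φ (ch F m)).left_inv (ch_src F m)
    have hcb : F.φ (ch F m) m ∈ Metric.closedBall (F.z (ch F m)) (F.r (ch F m)) :=
      Metric.ball_subset_closedBall (ch_full F m).2
    have key : ∀ l k, |D1 F g m l k| ≤ Fintype.card F.ι * B * fn (Jg F g hA m) := by
      intro l k
      unfold D1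
      rw [lo_fderiv_coord F hg hA hw l, hinv]
      refine (Finset.abs_sum_le_sum_abs _ _).trans ?_
      calc _ ≤ ∑ _j : F.ι, B * fn (Jg F g hA m) := by
            refine Finset.sum_le_sum fun j _ => ?_
            rw [abs_mul]
            refine mul_le_mul ?_ (abs_entry_le_fn _ _ _) (abs_nonneg _) hB
            have h3 := (fderiv ℝ ((F.ψ j).1 ∘ (F.φ (ch F m)).symm) (F.φ (ch F m) m)).le_opNorm
              (EuclideanSpace.single k (1 : ℝ))
            rw [Jc_single, mul_one, Real.norm_eq_abs] at h3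
            exact h3.trans (h1 _ j _ hcb)
        _ = Fintype.card F.ι * B * fn (Jg F g hA m) := by
            rw [Finset.sum_const, Finset.card_univ, nsmul_eq_mul]
            ring
    refine (fn_le_of_entries (mul_nonneg (by positivity) (fn_nonneg _)) key).trans ?_
    rw [Fintype.card_fin]
    have h0 := fn_nonneg (Jg F g hA m)
    have h5 : 0 ≤ ((Fintype.card F.ι : ℝ) * (d * (d * B) * B) + 1) * fn (Jg F g hA m) :=
      mul_nonneg (by positivity) h0
    nlinarith

end Pool.Agent.H73.LX
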