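import Mathlib
import Pool.Agent.H73.LX.Mp
import Pool.Agent.H73.LX.Jc

/-!
MP_d9606f_gt, full theorem: Taylor formula of order one in the frame (helper73).

`taylor_frame`: `f m' - f m = ∑_j X_j f (m) (ψ_j m' - ψ_j m) + O(dst m m' ^ 2)`, for all `m, m'`.
`D1_bdd`: the derivatives of one map are bounded.  `Jg_mul`, `Jg_cont`, `Jg_one_ne`: the cocycle.
-/

open MeasureTheory Filter
open scoped Topology ContDiff

namespace Pool.Agent.H73.LX

open Pool.Agent.H73.PZ Pool.Agent.H23.DM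

variable {d : ℕ} {M : Type} [TopologicalSpace M] (F : Fr d M)

theorem taylor_frame [CompactSpace M] (f : F.A) : ∃ C : ℝ, 0 ≤ C ∧ ∀ m m' : M,
    |f.1 m' - f.1 m - ∑ j, (F.X j f).1 m * ((F.ψ j).1 m' - (F.ψ j).1 m)| ≤
      C * F.dst m m' ^ 2 := by
  obtain ⟨δ, hδ, hfull⟩ := exists_full F
  obtain ⟨B, hB0, hB⟩ := dst_bdd F
  obtain ⟨Cf, hCf0, hCf⟩ := F.bdd f
  choose CX hCX0 hCX using fun j : F.ι => F.bdd (F.X j f)
  choose Tf hTf0 hTf using fun c : F.κ => F.taylor f c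
  choose Tp hTp0 hTp using fun (c : F.κ) (j : F.ι) => F.taylor (F.ψ j) c
  have hTf' : ∀ c, Tf c ≤ ∑ c, Tf c := fun c =>
    Finset.single_le_sum (f := fun c => Tf c) (fun c _ => hTf0 c) (Finset.mem_univ c)
  have hTp' : ∀ c, ∑ j, CX j * Tp c j ≤ ∑ c, ∑ j, CX j * Tp c j := fun c =>
    Finset.single_le_sum (f := fun c => ∑ j, CX j * Tp c j)
      (fun c _ => Finset.sum_nonneg fun j _ => mul_nonneg (hCX0 j) (hTp0 c j))
      (Finset.mem_univ c)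
  have hS1 : 0 ≤ ∑ c, Tf c := Finset.sum_nonneg fun c _ => hTf0 c
  have hS2 : 0 ≤ ∑ c, ∑ j, CX j * Tp c j :=
    Finset.sum_nonneg fun c _ => Finset.sum_nonneg fun j _ => mul_nonneg (hCX0 j) (hTp0 c j)
  have hS3 : 0 ≤ ∑ j, CX j * B := Finset.sum_nonneg fun j _ => mul_nonneg (hCX0 j) hB0.le
  have hK : 0 ≤ 2 * Cf + ∑ j, CX j * B := by linarith
  refine ⟨((∑ c, Tf c) + ∑ c, ∑ j, CX j * Tp c j) * d + (2 * Cf + ∑ j, CX j * B) / δ ^ 2,
    by positivity, fun m m' => ?_⟩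
  by_cases h : F.dst m m' ≤ δ
  · have h1 := hfull m m' h
    have h0 := ch_full F m
    have hw := Metric.ball_subset_closedBall h0.2
    have hw' := Metric.ball_subset_closedBall h1.2
    have e0 : (F.φ (ch F m)).symm (F.φ (ch F m) m) = m := (F.φ (ch F m)).left_inv h0.1
    have e1 : (F.φ (ch F m)).symm (F.φ (ch F m) m') = m' := (F.φ (ch F m)).left_inv h1.1
    have hf := hTf (ch F m) _ hw _ hw'
    have hp := fun j => hTp (ch F m) j _ hw _ hw'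
    rw [e0, e1] at hf
    simp only [e0, e1] at hp
    rw [F.LF (ch F m) f _ (F.ball _ hw), e0] at hf
    have hv : ‖F.φ (ch F m) m' - F.φ (ch F m) m‖ ^ 2 ≤ d * F.dst m m' ^ 2 := by
      have h2 := chart_le F h0 h1
      calc _ ≤ (√(d : ℝ) * F.dst m m') ^ 2 := pow_le_pow_left₀ (norm_nonneg _) h2 2
        _ = d * F.dst m m' ^ 2 := by rw [mul_pow, Real.sq_sqrt (Nat.cast_nonneg d)]
    have e2 : f.1 m' - f.1 m - ∑ j, (F.X j f).1 m * ((F.ψ j).1 m' - (F.ψ j).1 m) =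
        (f.1 m' - f.1 m - ∑ j, fderiv ℝ ((F.ψ j).1 ∘ (F.φ (ch F m)).symm) (F.φ (ch F m) m)
          (F.φ (ch F m) m' - F.φ (ch F m) m) * (F.X j f).1 m) -
        ∑ j, (F.X j f).1 m * ((F.ψ j).1 m' - (F.ψ j).1 m -
          fderiv ℝ ((F.ψ j).1 ∘ (F.φ (ch F m)).symm) (F.φ (ch F m) m)
            (F.φ (ch F m) m' - F.φ (ch F m) m)) := by
      have e3 : ∑ j, (F.X j f).1 m * ((F.ψ j).1 m' - (F.ψ j).1 m -
          fderiv ℝ ((F.ψ j).1 ∘ (F.φ (ch F m)).symm) (F.φ (ch F m) m)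
            (F.φ (ch F m) m' - F.φ (ch F m) m)) =
          ∑ j, (F.X j f).1 m * ((F.ψ j).1 m' - (F.ψ j).1 m) -
          ∑ j, fderiv ℝ ((F.ψ j).1 ∘ (F.φ (ch F m)).symm) (F.φ (ch F m) m)
            (F.φ (ch F m) m' - F.φ (ch F m) m) * (F.X j f).1 m := by
        rw [← Finset.sum_sub_distrib]
        exact Finset.sum_congr rfl fun j _ => by ring
      rw [e3]
      ring
    rw [e2]
    refine (abs_sub _ _).trans ?_
    have h3 : |∑ j, (F.X j f).1 m * ((F.ψ j).1 m' - (F.ψ j).1 m -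
          fderiv ℝ ((F.ψ j).1 ∘ (F.φ (ch F m)).symm) (F.φ (ch F m) m)
            (F.φ (ch F m) m' - F.φ (ch F m) m))| ≤
        (∑ j, CX j * Tp (ch F m) j) * ‖F.φ (ch F m) m' - F.φ (ch F m) m‖ ^ 2 := by
      refine (Finset.abs_sum_le_sum_abs _ _).trans ?_
      rw [Finset.sum_mul]
      refine Finset.sum_le_sum fun j _ => ?_
      rw [abs_mul, mul_assoc]
      exact mul_le_mul (hCX j m) (hp j) (abs_nonneg _) (hCX0 j)
    have h4 : Tf (ch F m) * ‖F.φ (ch F m) m' - F.φ (ch F m) m‖ ^ 2 ≤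
        (∑ c, Tf c) * (d * F.dst m m' ^ 2) :=
      mul_le_mul (hTf' _) hv (by positivity) hS1
    have h5 : (∑ j, CX j * Tp (ch F m) j) * ‖F.φ (ch F m) m' - F.φ (ch F m) m‖ ^ 2 ≤
        (∑ c, ∑ j, CX j * Tp c j) * (d * F.dst m m' ^ 2) :=
      mul_le_mul (hTp' _) hv (by positivity) hS2
    have h6 : 0 ≤ (2 * Cf + ∑ j, CX j * B) / δ ^ 2 * F.dst m m' ^ 2 := by positivity
    nlinarith [hf, h3, h4, h5, h6]
  · rw [not_le] at h
    have h1 : |f.1 m' - f.1 m - ∑ j, (F.X j f).1 m * ((F.ψ j).1 m' - (F.ψ j).1 m)| ≤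
        2 * Cf + ∑ j, CX j * B := by
      have h2 : |∑ j, (F.X j f).1 m * ((F.ψ j).1 m' - (F.ψ j).1 m)| ≤ ∑ j, CX j * B := by
        refine (Finset.abs_sum_le_sum_abs _ _).trans (Finset.sum_le_sum fun j _ => ?_)
        rw [abs_mul]
        refine mul_le_mul (hCX j m) ?_ (abs_nonneg _) (hCX0 j)
        rw [abs_sub_comm]
        exact (dst_ψ F m m' j).trans (hB m m')
      have h3 := hCf m
      have h4 := hCf m'
      rw [abs_le] at h2 h3 h4 ⊢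
      constructor <;> linarith [h2.1, h2.2, h3.1, h3.2, h4.1, h4.2]
    have h5 : (2 * Cf + ∑ j, CX j * B) ≤ (2 * Cf + ∑ j, CX j * B) / δ ^ 2 * F.dst m m' ^ 2 := by
      rw [div_mul_eq_mul_div, le_div_iff₀ (by positivity)]
      exact mul_le_mul_of_nonneg_left (pow_le_pow_left₀ hδ.le h.le 2) hK
    have h6 : 0 ≤ ((∑ c, Tf c) + ∑ c, ∑ j, CX j * Tp c j) * d * F.dst m m' ^ 2 := by positivity
    linarith [add_mul (((∑ c, Tf c) + ∑ c, ∑ j, CX j * Tp c j) * d)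
      ((2 * Cf + ∑ j, CX j * B) / δ ^ 2) (F.dst m m' ^ 2)]

theorem Jg_cont {g : M → M} (hA : ∀ f ∈ F.A, f ∘ g ∈ F.A) (i j : F.ι) :
    Continuous fun m => Jg F g hA m i j := F.cont _

theorem Jg_bdd [CompactSpace M] {g : M → M} (hA : ∀ f ∈ F.A, f ∘ g ∈ F.A) :
    ∃ C : ℝ, 0 ≤ C ∧ ∀ m, fn (Jg F g hA m) ≤ C := by
  choose Λ hΛ0 hΛ using fun (i j : F.ι) =>
    F.bdd (F.X i ⟨(F.ψ j).1 ∘ g, hA _ (F.ψ j).2⟩)
  have hS : ∀ i j, Λ i j ≤ ∑ i, ∑ j, Λ i j := fun i j =>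
    (Finset.single_le_sum (f := fun j => Λ i j) (fun j _ => hΛ0 i j) (Finset.mem_univ j)).trans
      (Finset.single_le_sum (f := fun i => ∑ j, Λ i j)
        (fun i _ => Finset.sum_nonneg fun j _ => hΛ0 i j) (Finset.mem_univ i))
  have hS0 : 0 ≤ ∑ i, ∑ j, Λ i j :=
    Finset.sum_nonneg fun i _ => Finset.sum_nonneg fun j _ => hΛ0 i j
  exact ⟨Fintype.card F.ι * ∑ i, ∑ j, Λ i j, by positivity, fun m =>
    fn_le_of_entries hS0 fun i j => (hΛ i j m).trans (hS i j)⟩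

theorem D1_bdd [CompactSpace M] {g : M → M} (hg : Continuous g)
    (hA : ∀ f ∈ F.A, f ∘ g ∈ F.A) : ∃ C : ℝ, 0 ≤ C ∧ ∀ m, fn (D1 F g m) ≤ C := by
  obtain ⟨C, hC, h⟩ := J_compare F
  obtain ⟨B, hB, h'⟩ := Jg_bdd F hA
  exact ⟨C * B, by positivity, fun m =>
    ((h g hA hg m).2).trans (mul_le_mul_of_nonneg_left (h' m) hC.le)⟩

/-- The derivative of the identity. -/
theorem D1_one (m : M) : D1 F (fun y => y) m = 1 := by
  have h1 : lo F (fun y => y) (ch F m) (ch F m) =ᶠ[𝓝 (F.φ (ch F m) m)] id := by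
    filter_upwards [(F.φ (ch F m)).open_target.mem_nhds ((F.φ (ch F m)).map_source (ch_src F m))]
      with w hw
    exact (F.φ (ch F m)).right_inv hw
  ext l k
  unfold D1
  rw [h1.fderiv_eq, fderiv_id, ContinuousLinearMap.id_apply, Matrix.one_apply]
  simp

theorem Jg_one_ne [CompactSpace M] (hd : 1 ≤ d) (hA : ∀ f ∈ F.A, (f ∘ fun y => y) ∈ F.A)
    (m : M) : Jg F (fun y => y) hA m ≠ 0 := by
  intro h0
  obtain ⟨C, hC, h⟩ := J_compare F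
  have h1 := (h (fun y => y) hA continuous_id m).2
  rw [h0, fn_zero, mul_zero, D1_one] at h1
  have h2 : fn (1 : Matrix (Fin d) (Fin d) ℝ) = 0 := le_antisymm h1 (fn_nonneg _)
  rw [fn_eq_zero] at h2
  have h3 := congrFun (congrFun h2 ⟨0, hd⟩) ⟨0, hd⟩
  simp at h3

/-- The chain rule. -/
theorem Jg_mul {g g' : M → M} (hg' : Continuous g') (hA : ∀ f ∈ F.A, f ∘ g ∈ F.A)
    (hA' : ∀ f ∈ F.A, f ∘ g' ∈ F.A) (hAA : ∀ f ∈ F.A, f ∘ (g ∘ g') ∈ F.A) (m : M) :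
    Jg F (g ∘ g') hAA m = Jg F g' hA' m * Jg F g hA (g' m) := by
  ext i j
  rw [Matrix.mul_apply]
  exact F.chain hg' hA' ⟨(F.ψ j).1 ∘ g, hA _ (F.ψ j).2⟩ i m

end Pool.Agent.H73.LX
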