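import Mathlib
import Pool.Agent.H73.LX.Jt
import Pool.Agent.H73.LX.Ta
import Pool.Agent.H67.LX.Defs

/-!
MP_d9606f_gt, full theorem: the structures `Jet` and `Fib` for a smooth action (helper73).

`MonD d r`: the monomials of degree `1, …, r` in `d` variables, abstractly: `e k` are the ones of
degree one, `le1`, `le2` the size, `jets` the Taylor formula and `uniq` the uniqueness of jets.
-/

set_option linter.unusedSectionVars false

open MeasureTheory Filter Matrix
open scoped Topology ContDiff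

namespace Pool.Agent.H73.LX

open Pool.Agent.H73.PZ Pool.Agent.H23.DM Pool.Agent.H67.LX

/-- The matrix of a jet maps the space of degree one to itself by the derivative. -/
def Qd {d : ℕ} {ν : Type} (e : Fin d → ν) (A : Eu d →L[ℝ] Eu d) (D : Matrix ν ν ℝ) : Prop :=
  (∀ a k, a ∉ Set.range e → D a (e k) = 0) ∧
    ∀ l k, D (e l) (e k) = A (EuclideanSpace.single k 1) l

/-- Monomials of degree `1, …, r`. -/
structure MonD (d r : ℕ) where
  ν : Type
  fin : Fintype ν
  dec : DecidableEq ν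
  mon : Eu d → ν → ℝ
  e : Fin d → ν
  inj : Function.Injective e
  lin : ∀ v k, mon v (e k) = v k
  le1 : ∀ v a, ‖v‖ ≤ 1 → |mon v a| ≤ ‖v‖
  le2 : ∀ v a, ‖v‖ ≤ 1 → a ∉ Set.range e → |mon v a| ≤ ‖v‖ ^ 2
  jets : HasJets mon r (Qd e)
  uniq : JetUniq mon r

attribute [instance] MonD.fin MonD.dec

namespace MonD

open Classical in
/-- The projection on the monomials of degree one. -/
noncomputable def P {d r : ℕ} (N : MonD d r) : Matrix N.ν N.ν ℝ := fun a b =>
  if a = b ∧ a ∈ Set.range N.e then 1 else 0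

variable {d r : ℕ} (N : MonD d r)

theorem P_symm : N.Pᵀ = N.P := by
  ext a b
  rw [Matrix.transpose_apply]
  unfold P
  by_cases h : a = b
  · subst h
    rfl
  · have h' : ¬ b = a := fun h1 => h h1.symm
    simp [h, h']

theorem mul_P (D : Matrix N.ν N.ν ℝ) (a b : N.ν) [Decidable (b ∈ Set.range N.e)] :
    (D * N.P) a b = if b ∈ Set.range N.e then D a b else 0 := by
  rw [Matrix.mul_apply, Finset.sum_eq_single b]
  · unfold P
    by_cases h : b ∈ Set.range N.e <;> simp [h]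
  · intro c _ hc
    unfold P
    simp [hc]
  · intro h
    exact (h (Finset.mem_univ _)).elim

theorem P_mul (D : Matrix N.ν N.ν ℝ) (a b : N.ν) [Decidable (a ∈ Set.range N.e)] :
    (N.P * D) a b = if a ∈ Set.range N.e then D a b else 0 := by
  rw [Matrix.mul_apply, Finset.sum_eq_single a]
  · unfold P
    by_cases h : a ∈ Set.range N.e <;> simp [h]
  · intro c _ hc
    unfold P
    simp [Ne.symm hc]
  · intro h
    exact (h (Finset.mem_univ _)).elim

theorem P_mulVec (v : N.ν → ℝ) (a : N.ν) [Decidable (a ∈ Set.range N.e)] :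
    (N.P *ᵥ v) a = if a ∈ Set.range N.e then v a else 0 := by
  unfold Matrix.mulVec dotProduct
  rw [Finset.sum_eq_single a]
  · unfold P
    by_cases h : a ∈ Set.range N.e <;> simp [h]
  · intro c _ hc
    unfold P
    simp [Ne.symm hc]
  · intro h
    exact (h (Finset.mem_univ _)).elim

theorem P_idem : N.P * N.P = N.P := by
  classical
  ext a b
  rw [N.mul_P]
  unfold P
  by_cases h : b ∈ Set.range N.e
  · simp [h]
  · by_cases h1 : a = b
    · subst h1
      simp [h]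
    · simp [h1]

theorem P_inv {A : Eu d →L[ℝ] Eu d} {D : Matrix N.ν N.ν ℝ} (h : Qd N.e A D) :
    N.P * (D * N.P) = D * N.P := by
  classical
  ext a b
  rw [N.P_mul]
  by_cases ha : a ∈ Set.range N.e
  · simp [ha]
  · rw [if_neg ha, N.mul_P]
    by_cases hb : b ∈ Set.range N.e
    · obtain ⟨k, rfl⟩ := hb
      rw [if_pos ⟨k, rfl⟩]
      exact (h.1 a k ha).symm
    · rw [if_neg hb]

/-- The norm of the block of degree one. -/
theorem fn_DP {A : Eu d →L[ℝ] Eu d} {D : Matrix N.ν N.ν ℝ} (h : Qd N.e A D) :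
    fn (D * N.P) = fn (fun l k => A (EuclideanSpace.single k 1) l : Matrix (Fin d) (Fin d) ℝ) := by
  classical
  unfold fn
  congr 1
  symm
  refine Fintype.sum_of_injective N.e N.inj _ _ (fun a ha => ?_) fun l => ?_
  · refine Finset.sum_eq_zero fun b _ => ?_
    rw [N.mul_P]
    by_cases hb : b ∈ Set.range N.e
    · obtain ⟨k, rfl⟩ := hb
      rw [if_pos ⟨k, rfl⟩, h.1 a k ha]
      norm_num
    · rw [if_neg hb]
      norm_num
  · refine Fintype.sum_of_injective N.e N.inj _ _ (fun b hb => ?_) fun k => ?_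
    · rw [N.mul_P, if_neg hb]
      norm_num
    · rw [N.mul_P, if_pos ⟨k, rfl⟩, h.2 l k]

theorem vn_P (v : Eu d) : vn (N.P *ᵥ N.mon v) = ‖v‖ := by
  classical
  unfold vn
  rw [EuclideanSpace.norm_eq]
  congr 1
  symm
  refine Fintype.sum_of_injective N.e N.inj _ _ (fun a ha => ?_) fun k => ?_
  · rw [N.P_mulVec, if_neg ha]
    norm_num
  · rw [N.P_mulVec, if_pos ⟨k, rfl⟩, N.lin, Real.norm_eq_abs, sq_abs]

theorem vn_mon_le {v : Eu d} (hv : ‖v‖ ≤ 1) : vn (N.mon v) ≤ Fintype.card N.ν * ‖v‖ :=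
  vn_le_of_entries (norm_nonneg _) fun a => N.le1 v a hv

theorem vn_mon_sub_le {v : Eu d} (hv : ‖v‖ ≤ 1) :
    vn (N.mon v - N.P *ᵥ N.mon v) ≤ Fintype.card N.ν * ‖v‖ ^ 2 := by
  classical
  refine vn_le_of_entries (by positivity) fun a => ?_
  rw [Pi.sub_apply, N.P_mulVec]
  by_cases ha : a ∈ Set.range N.e
  · rw [if_pos ha, sub_self, abs_zero]
    positivity
  · rw [if_neg ha, sub_zero]
    exact N.le2 v a hv ha

end MonD

section

variable {d : ℕ} {M : Type} [TopologicalSpace M] (F : Fr d M)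

/-- The functions of the frame. -/
def psi (i : F.ι) (m : M) : ℝ := (F.ψ i).1 m

theorem dst_le_dist0 (m m' : M) : F.dst m m' ≤ dist0 (psi F) m m' := by
  refine dst_le F (vn_nonneg _) fun j => ?_
  rw [abs_sub_comm]
  exact abs_entry_le_vn (fun i => psi F i m' - psi F i m) j

theorem dist0_le_dst (m m' : M) :
    dist0 (psi F) m m' ≤ Fintype.card F.ι * F.dst m m' := by
  refine vn_le_of_entries (dst_nonneg F m m') fun j => ?_
  rw [abs_sub_comm]
  exact dst_ψ F m m' j

variable [CompactSpace M] [MeasurableSpace M] [BorelSpace M]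

/-- The structure `Jet` from the jets in the chosen charts. -/
theorem exists_Jet {Γ : Type} [Group Γ] [MulAction Γ M]
    (hc : ∀ γ : Γ, Continuous fun x : M => γ • x)
    (hA : ∀ γ : Γ, ∀ f ∈ F.A, (f ∘ fun x : M => γ • x) ∈ F.A) {r : ℕ} (N : MonD d r)
    {J : Γ → M → Matrix F.ι F.ι ℝ}
    (hJ : ∀ γ m, J γ m = (Jg F (fun x : M => γ • x) (hA γ) m)ᵀ) {lam : Γ → ℝ}
    (hlam : ∀ γ m, fn (D1 F (fun x : M => γ • x) m) ≤ lam γ) :
    Nonempty (Jet Γ M (psi F) J lam r) := by
  classical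
  obtain ⟨T⟩ := exists_jets F (Γ := Γ) N.jets N.uniq hc hA
  obtain ⟨δ₀, C₀, hδ₀, hC₀, hu⟩ := exists_u_bound F
  have hδ : 0 < min δ₀ (1 / C₀) := lt_min hδ₀ (by positivity)
  set δ := min δ₀ (1 / C₀) with hδdef
  set V : M → M → N.ν → ℝ := fun m m' =>
    if F.dst m m' ≤ δ then N.mon (u F m m') else 0 with hV
  have hclose : ∀ m m', F.dst m m' ≤ δ → V m m' = N.mon (u F m m') := fun m m' h => if_pos h
  have hfar : ∀ m m', ¬ F.dst m m' ≤ δ → V m m' = 0 := fun m m' h => if_neg h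
  have hu1 : ∀ m m', F.dst m m' ≤ δ → ‖u F m m'‖ ≤ C₀ * F.dst m m' ∧
      F.dst m m' ≤ C₀ * ‖u F m m'‖ ∧ ‖u F m m'‖ ≤ 1 := by
    intro m m' h
    obtain ⟨-, h1, h2⟩ := hu m m' (h.trans (min_le_left _ _))
    refine ⟨h1, h2, h1.trans ?_⟩
    have h3 := h.trans (min_le_right _ _)
    rw [le_div_iff₀ hC₀, mul_comm] at h3
    exact h3
  have hvn0 : vn (0 : N.ν → ℝ) = 0 := vn_eq_zero.2 rfl
  have hcard : (0 : ℝ) ≤ Fintype.card N.ν := Nat.cast_nonneg _
  have hVle : ∀ m m', vn (V m m') ≤ Fintype.card N.ν * C₀ * F.dst m m' := by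
    intro m m'
    by_cases h : F.dst m m' ≤ δ
    · obtain ⟨h1, -, h3⟩ := hu1 m m' h
      rw [hclose m m' h, mul_assoc]
      exact (N.vn_mon_le h3).trans (mul_le_mul_of_nonneg_left h1 hcard)
    · rw [hfar m m' h, hvn0]
      exact mul_nonneg (mul_nonneg hcard hC₀.le) (dst_nonneg F m m')
  obtain ⟨B, hB0, hB⟩ := dst_bdd F
  refine ⟨{
    ι := N.ν
    fin := N.fin
    dec := N.dec
    D := T.D
    meas := T.meas
    bdd := T.bdd
    mul := T.mul
    one := T.one
    P := N.P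
    P_symm := N.P_symm
    P_idem := N.P_idem
    P_inv := fun γ m => N.P_inv (T.Qp γ m)
    lam_le := fun γ m => ?_
    V := V
    V_err := fun γ => ?_
    V_le := ⟨Fintype.card N.ν * C₀, fun m m' => (hVle m m').trans
      (mul_le_mul_of_nonneg_left (dst_le_dist0 F m m') (mul_nonneg hcard hC₀.le))⟩
    V_quad := ⟨Fintype.card N.ν * C₀ ^ 2, fun m m' => ?_⟩
    V_ge := ⟨Fintype.card F.ι * C₀, δ, hδ, fun m m' h => ?_⟩
    J_le := ?_ }⟩
  · rw [N.fn_DP (T.Qp γ m)]
    exact hlam γ m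
  · -- the error
    obtain ⟨δ₁, C₁, hδ₁, hC₁, hj⟩ := T.jet γ
    obtain ⟨L, hL, hlip⟩ := map_lip F (hA γ)
    obtain ⟨CD, hCD⟩ := T.bdd γ
    set δ' := min δ (min δ₁ (δ / L)) with hδ'
    have hδ'0 : 0 < δ' := lt_min hδ (lt_min hδ₁ (div_pos hδ hL))
    set W : ℝ := Fintype.card N.ν * C₀ * B with hW
    have hW0 : 0 ≤ W := by positivity
    have hVW : ∀ m m', vn (V m m') ≤ W := fun m m' => (hVle m m').trans
      (mul_le_mul_of_nonneg_left (hB m m') (mul_nonneg hcard hC₀.le))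
    refine ⟨C₁ + (W + |CD| * W) / δ' ^ (r + 1), fun m m' => ?_⟩
    have hd1 : F.dst m m' ^ (r + 1) ≤ dist0 (psi F) m m' ^ (r + 1) :=
      pow_le_pow_left₀ (dst_nonneg F m m') (dst_le_dist0 F m m') _
    have hE : 0 ≤ (W + |CD| * W) / δ' ^ (r + 1) := by positivity
    have hdp : 0 ≤ dist0 (psi F) m m' ^ (r + 1) := pow_nonneg (vn_nonneg _) _
    by_cases h : F.dst m m' ≤ δ'
    · have h1 : F.dst (γ • m) (γ • m') ≤ δ := by
        refine (hlip m m').trans ?_
        have := h.trans ((min_le_right _ _).trans (min_le_right _ _))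
        rwa [le_div_iff₀ hL, mul_comm] at this
      rw [hclose m m' (h.trans (min_le_left _ _)), hclose _ _ h1]
      have h2 := hj m m' (h.trans ((min_le_right _ _).trans (min_le_left _ _)))
      calc _ ≤ C₁ * F.dst m m' ^ (r + 1) := h2
        _ ≤ C₁ * dist0 (psi F) m m' ^ (r + 1) := mul_le_mul_of_nonneg_left hd1 hC₁
        _ ≤ _ := by
          rw [add_mul]
          exact le_add_of_nonneg_right (mul_nonneg hE hdp)
    · rw [not_le] at h
      have h1 : vn (V (γ • m) (γ • m') - T.D γ m *ᵥ V m m') ≤ W + |CD| * W := by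
        refine (vn_sub_le _ _).trans (add_le_add (hVW _ _) ((vn_mulVec_le _ _).trans ?_))
        exact mul_le_mul ((hCD m).trans (le_abs_self _)) (hVW _ _) (vn_nonneg _) (abs_nonneg _)
      refine h1.trans ?_
      have h2 : W + |CD| * W ≤ (W + |CD| * W) / δ' ^ (r + 1) * F.dst m m' ^ (r + 1) := by
        rw [div_mul_eq_mul_div, le_div_iff₀ (by positivity)]
        exact mul_le_mul_of_nonneg_left (pow_le_pow_left₀ hδ'0.le h.le _) (by positivity)
      calc _ ≤ (W + |CD| * W) / δ' ^ (r + 1) * F.dst m m' ^ (r + 1) := h2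
        _ ≤ (W + |CD| * W) / δ' ^ (r + 1) * dist0 (psi F) m m' ^ (r + 1) :=
          mul_le_mul_of_nonneg_left hd1 hE
        _ ≤ _ := by
          rw [add_mul]
          exact le_add_of_nonneg_left (mul_nonneg hC₁ hdp)
  · -- quadratic part
    have hdp : 0 ≤ dist0 (psi F) m m' := vn_nonneg _
    by_cases h : F.dst m m' ≤ δ
    · obtain ⟨h1, -, h3⟩ := hu1 m m' h
      rw [hclose m m' h]
      calc _ ≤ Fintype.card N.ν * ‖u F m m'‖ ^ 2 := N.vn_mon_sub_le h3
        _ ≤ Fintype.card N.ν * (C₀ * dist0 (psi F) m m') ^ 2 := by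
          refine mul_le_mul_of_nonneg_left (pow_le_pow_left₀ (norm_nonneg _) ?_ 2) hcard
          exact h1.trans (mul_le_mul_of_nonneg_left (dst_le_dist0 F m m') hC₀.le)
        _ = _ := by ring
    · rw [hfar m m' h, Matrix.mulVec_zero, sub_self, hvn0]
      positivity
  · -- lower bound
    have h0 : F.dst m m' ≤ δ := (dst_le_dist0 F m m').trans h
    obtain ⟨-, h2, -⟩ := hu1 m m' h0
    rw [hclose m m' h0, N.vn_P]
    calc _ ≤ Fintype.card F.ι * F.dst m m' := dist0_le_dst F m m'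
      _ ≤ Fintype.card F.ι * (C₀ * ‖u F m m'‖) :=
        mul_le_mul_of_nonneg_left h2 (Nat.cast_nonneg _)
      _ = _ := by ring
  · obtain ⟨C, hC, h⟩ := J_compare F
    refine ⟨C, fun γ m => ?_⟩
    rw [hJ, fn_transpose, N.fn_DP (T.Qp γ m)]
    exact (h _ (hA γ) (hc γ) m).1

end

end Pool.Agent.H73.LX
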