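import Mathlib
import Pool.Agent.H67.LX.Cnt
import Pool.Agent.H23.DM.La1

/-!
MP_d9606f_gt, full theorem: elementary properties of the function `L` (helper73).
-/

set_option linter.unusedSectionVars false

open MeasureTheory Filter Matrix
open scoped Topology

namespace Pool.Agent.H67.LX

open Pool.Agent.H73.PZ Pool.Agent.H23.DM

variable {p : ℕ} [Fact p.Prime] {n : ℕ} {Γ : Subgroup (SLn p n)} {F M : Type}
    [TopologicalSpace F] [CompactSpace F] [T2Space F] [SecondCountableTopology F]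
    [MeasurableSpace F] [BorelSpace F] [MulAction (SLn p n) F]
    [TopologicalSpace M] [CompactSpace M] [T2Space M] [SecondCountableTopology M]
    [MeasurableSpace M] [BorelSpace M] [MulAction Γ M]
    [MulAction (SLn p n) (F × M)] [MulAction (AZ n) (F × M)]

namespace Fib

theorem s_J_ne (V : Fib Γ M) (γ : Γ) (m : M) : V.J γ m ≠ 0 := by
  intro h
  have h1 := V.J_mul γ⁻¹ γ m
  rw [inv_mul_cancel, h, Matrix.mul_zero] at h1
  exact V.J_one m h1

theorem s_J_pos (V : Fib Γ M) (γ : Γ) (m : M) : 0 < fn (V.J γ m) :=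
  lt_of_le_of_ne (fn_nonneg _) fun h => V.s_J_ne γ m (fn_eq_zero.1 h.symm)

theorem s_J_one_ge (V : Fib Γ M) (m : M) : 1 ≤ fn (V.J 1 m) := by
  have h1 := V.J_mul 1 1 m
  rw [one_mul, one_smul] at h1
  have h2 : fn (V.J 1 m) ≤ fn (V.J 1 m) * fn (V.J 1 m) := by
    conv_lhs => rw [h1]
    exact fn_mul_le _ _
  have h3 := V.s_J_pos 1 m
  nlinarith

theorem s_fn_cont (V : Fib Γ M) (γ : Γ) : Continuous fun m : M => fn (V.J γ m) := by
  unfold fn
  exact Real.continuous_sqrt.comp
    (continuous_finsetSum _ fun i _ => continuous_finsetSum _ fun j _ => (V.J_cont γ i j).pow 2)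

end Fib

namespace Sus

theorem s_C_mul (S : Sus Γ F M) (g h : SLn p n) (x : F × M) :
    S.C (g * h) x = S.C g (h • x) * S.C h x := by
  unfold C
  rw [S.B.al_mul, S.V.J_mul, S.fst_smul, S.snd_smul]

theorem s_C_pos (S : Sus Γ F M) (g : SLn p n) (x : F × M) : 0 < fn (S.C g x) := S.V.s_J_pos _ _

theorem s_L_mul (S : Sus Γ F M) (g h : SLn p n) (x : F × M) :
    S.L (g * h) x ≤ S.L g (h • x) + S.L h x := by
  unfold L
  rw [S.s_C_mul, ← Real.log_mul (S.s_C_pos _ _).ne' (S.s_C_pos _ _).ne']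
  refine Real.log_le_log ?_ (fn_mul_le _ _)
  rw [← S.s_C_mul]
  exact S.s_C_pos _ _

theorem s_L_one (S : Sus Γ F M) (x : F × M) : 0 ≤ S.L 1 x := by
  unfold L C
  rw [S.B.al_K 1 (one_mem _)]
  exact Real.log_nonneg (S.V.s_J_one_ge _)

theorem s_L_cont (S : Sus Γ F M) (g : SLn p n) : Continuous (S.L g) := by
  unfold L
  refine Continuous.log ?_ fun x => (S.s_C_pos g x).ne'
  rw [continuous_iff_continuousAt]
  intro x
  have h1 : IsOpen {f : F | S.B.al g f = S.B.al g x.1} := (S.B.al_lc g).isOpen_fiber _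
  have h2 : (fun y : F × M => fn (S.C g y)) =ᶠ[𝓝 x]
      fun y : F × M => fn (S.V.J (S.B.al g x.1) y.2) := by
    have h3 : ∀ᶠ y : F × M in 𝓝 x, y.1 ∈ {f : F | S.B.al g f = S.B.al g x.1} :=
      continuous_fst.continuousAt.eventually (h1.mem_nhds rfl)
    filter_upwards [h3] with y hy
    unfold C
    rw [show S.B.al g y.1 = S.B.al g x.1 from hy]
  refine ContinuousAt.congr ?_ h2.symm
  exact ((S.V.s_fn_cont _).comp continuous_snd).continuousAt

theorem s_L_int (S : Sus Γ F M) (g : SLn p n) (μ : Measure (F × M)) [IsFiniteMeasure μ] :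
    Integrable (S.L g) μ := by
  have h1 : HasCompactSupport (S.L g) :=
    HasCompactSupport.of_compactSpace _
  exact (S.s_L_cont g).integrable_of_hasCompactSupport h1

/-- The function is bounded. -/
theorem s_L_bdd (S : Sus Γ F M) (g : SLn p n) : ∃ C : ℝ, ∀ x, |S.L g x| ≤ C := by
  rcases isEmpty_or_nonempty (F × M) with h | h
  · exact ⟨0, fun x => (h.false x).elim⟩
  · obtain ⟨x0, -, hx0⟩ := isCompact_univ.exists_isMaxOn (s := (Set.univ : Set (F × M)))
      Set.univ_nonempty ((S.s_L_cont g).abs.continuousOn)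
    exact ⟨|S.L g x0|, fun x => hx0 (Set.mem_univ x)⟩

end Sus

end Pool.Agent.H67.LX
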