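import Mathlib
import Pool.Agent.H73.PZ.Z4

/-!
MP_d9606f_gt, full theorem: interface to the library `H73/PZ` (helper73).

* `isometric_of_J`: if the Jacobi matrices `J^γ` grow subexponentially in the size of `γ`, the action
  is isometric.
* `exists_setup'`: the calculus of the action exists.
-/

open MeasureTheory Filter Bundle
open scoped Topology ContDiff Manifold

namespace Pool.Agent.H73.LX

open Pool.Agent.H73.PZ

variable {p : ℕ} [Fact p.Prime] {n : ℕ} {d : ℕ} {M : Type} [TopologicalSpace M]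
  [ChartedSpace (EuclideanSpace ℝ (Fin d)) M] [IsManifold (𝓡 d) ∞ M]
  [CompactSpace M] [T2Space M]

/-- Subexponential growth of the Jacobi matrices implies that the action is isometric. -/
theorem isometric_of_J (hn : 3 ≤ n) {Γ : Subgroup (SLn p n)} (hΓ : IsLattice Γ)
    [MulAction Γ M] [MeasurableSpace M] [BorelSpace M] (hs : IsSmoothAction d Γ M)
    (S : Setup d Γ M) (h : ∀ ε : ℝ, 0 < ε → ∃ C : ℝ, ∀ (γ : Γ) (i j : S.F.ι) (x : M),
      |(S.C.J γ i j).1 x| ≤ C * size (γ : SLn p n) ^ ε) : IsIsometricAction d Γ M := by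
  obtain ⟨w, C₀, hT⟩ := lattice_strongT hn hΓ
  have hS := lattice_sz (by omega) hΓ
  have h13 : (0 : ℝ) < 7 * d + 13 := by positivity
  obtain ⟨C, hC⟩ := h (1 / (7 * (d : ℝ) + 13)) (by positivity)
  refine S.isometric hs (S.C.invariant_metric hS hT (s := 1 / (7 * (d : ℝ) + 13)) (by positivity)
    ⟨|C|, abs_nonneg C, fun γ i j x => (hC γ i j x).trans ?_⟩ ?_)
  · exact mul_le_mul_of_nonneg_right (le_abs_self C) (Real.rpow_nonneg (size_nonneg _) _)
  · rw [mul_one_div, div_lt_one h13]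
    linarith

omit [CompactSpace M] [T2Space M] in
/-- The two forms of the definitions agree. -/
theorem isometric_iff {Γ : Type} [Group Γ] [MulAction Γ M] :
    IsometricAction (𝓡 d) M Γ ↔ IsIsometricAction d Γ M := Iff.rfl

omit [IsManifold (𝓡 d) ∞ M] [CompactSpace M] [T2Space M] in
theorem smooth_iff {Γ : Type} [Group Γ] [MulAction Γ M] :
    SmoothAction (𝓡 d) M Γ ↔ IsSmoothAction d Γ M := Iff.rfl

/-- The final statement follows from the growth estimate. -/
theorem final (hn : 3 ≤ n) {Γ : Subgroup (SLn p n)} (hΓ : IsLattice Γ)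
    [MulAction Γ M] (hs : SmoothAction (𝓡 d) M Γ)
    (h : ∀ [MeasurableSpace M] [BorelSpace M] (S : Setup d Γ M) (ε : ℝ), 0 < ε → ∃ C : ℝ,
      ∀ (γ : Γ) (i j : S.F.ι) (x : M), |(S.C.J γ i j).1 x| ≤ C * size (γ : SLn p n) ^ ε) :
    IsometricAction (𝓡 d) M Γ := by
  let _ : MeasurableSpace M := borel M
  have _ : BorelSpace M := ⟨rfl⟩
  obtain ⟨S⟩ := exists_setup (d := d) (Γ := Γ) (M := M) hs
  exact isometric_of_J hn hΓ hs S (h S)

end Pool.Agent.H73.LX
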