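import Mathlib
import Pool.Agent.H73.LX.Fb
import Pool.Agent.H73.LX.Stmt

/-!
MP_d9606f_gt, full theorem: existence of the fibre data, from the monomials (helper73).
-/

set_option linter.unusedSectionVars false

open MeasureTheory Filter Matrix
open scoped Topology ContDiff Manifold

namespace Pool.Agent.H73.LX

open Pool.Agent.H73.PZ Pool.Agent.H23.DM Pool.Agent.H67.LX

theorem Jg_congr {d : ℕ} {M : Type} [TopologicalSpace M] (F : Fr d M) {g g' : M → M} (h : g = g')
    (hA : ∀ f ∈ F.A, f ∘ g ∈ F.A) (hA' : ∀ f ∈ F.A, f ∘ g' ∈ F.A) (m : M) :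
    Jg F g hA m = Jg F g' hA' m := by
  subst h
  rfl

theorem exists_fib_of {p : ℕ} [Fact p.Prime] {n : ℕ} (hn : 3 ≤ n) {Γ : Subgroup (SLn p n)}
    (hΓ : IsLattice Γ) {d : ℕ} (hd : 1 ≤ d) (N : ∀ r : ℕ, 1 ≤ r → MonD d r)
    {M : Type} [TopologicalSpace M]
    [ChartedSpace (EuclideanSpace ℝ (Fin d)) M] [IsManifold (𝓡 d) ∞ M] [CompactSpace M]
    [T2Space M] [MeasurableSpace M] [BorelSpace M] [MulAction Γ M]
    (hs : SmoothAction (𝓡 d) M Γ) :
    ∃ V : Fib Γ M, ∀ s : ℝ, 0 < s → s < 1 / (7 * (d : ℝ) + 12) →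
      (∃ C : ℝ, ∀ (γ : Γ) (m : M), fn (V.J γ m) ≤ C * size (γ : SLn p n) ^ s) →
      IsometricAction (𝓡 d) M Γ := by
  classical
  obtain ⟨S⟩ := exists_setup (d := d) (Γ := Γ) (M := M) hs
  have hc : ∀ γ : Γ, Continuous fun x : M => γ • x := fun γ => (hs γ).continuous
  have hA : ∀ γ : Γ, ∀ f ∈ S.F.A, (f ∘ fun x : M => γ • x) ∈ S.F.A := S.hAA
  choose lam hlam0 hlam using fun γ : Γ => D1_bdd S.F (hc γ) (hA γ)
  have hone : (fun x : M => (1 : Γ) • x) = fun y => y := by
    funext x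
    exact one_smul Γ x
  have hA1 : ∀ f ∈ S.F.A, (f ∘ fun y : M => y) ∈ S.F.A := by
    intro f hf
    have := hA 1 f hf
    rwa [hone] at this
  choose T hT0 hT using fun (γ : Γ) (i : S.F.ι) =>
    taylor_frame S.F ⟨(S.F.ψ i).1 ∘ fun x : M => γ • x, hA γ _ (S.F.ψ i).2⟩
  let V : Fib Γ M :=
    { κ := S.F.ι
      finκ := S.F.finι
      decκ := Classical.decEq _
      ψ := psi S.F
      ψ_cont := fun i => S.F.cont _
      ψ_sep := fun m m' h => S.F.sep m m' h
      smul_cont := hc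
      J := fun γ m => (Jg S.F (fun x : M => γ • x) (hA γ) m)ᵀ
      J_cont := fun γ i j => Jg_cont S.F (hA γ) j i
      J_mul := fun γ γ' m => by
        have e : (fun x : M => (γ * γ') • x) = (fun x : M => γ • x) ∘ fun x : M => γ' • x := by
          funext x
          exact mul_smul γ γ' x
        have hAA : ∀ f ∈ S.F.A, f ∘ ((fun x : M => γ • x) ∘ fun x : M => γ' • x) ∈ S.F.A := by
          intro f hf
          have := hA (γ * γ') f hf
          rwa [e] at this
        rw [Jg_congr S.F e (hA (γ * γ')) hAA, Jg_mul S.F (hc γ') (hA γ) (hA γ') hAA,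
          Matrix.transpose_mul]
      J_one := fun m h => by
        have h1 : Jg S.F (fun x : M => (1 : Γ) • x) (hA 1) m = 0 := by
          have := congrArg Matrix.transpose h
          rwa [Matrix.transpose_transpose, Matrix.transpose_zero] at this
        rw [Jg_congr S.F hone (hA 1) hA1] at h1
        exact Jg_one_ne S.F hd hA1 m h1
      J_err := fun γ => by
        refine ⟨Fintype.card S.F.ι * ∑ i, T γ i, fun m m' => ?_⟩
        have hS0 : 0 ≤ ∑ i, T γ i := Finset.sum_nonneg fun i _ => hT0 γ i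
        have hdd : S.F.dst m m' ^ 2 ≤ dist0 (psi S.F) m m' ^ 2 :=
          pow_le_pow_left₀ (dst_nonneg S.F m m') (dst_le_dist0 S.F m m') 2
        rw [mul_assoc]
        refine vn_le_of_entries (mul_nonneg hS0 (sq_nonneg _)) fun i => ?_
        have h1 := hT γ i m m'
        have h2 : T γ i ≤ ∑ i, T γ i :=
          Finset.single_le_sum (f := fun i => T γ i) (fun i _ => hT0 γ i) (Finset.mem_univ i)
        refine le_trans (le_of_eq ?_) (h1.trans
          (mul_le_mul h2 hdd (sq_nonneg _) hS0))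
        rfl
      lam := lam
      jet := fun r hr => Classical.choice (exists_Jet S.F hc hA (N r hr) (fun _ _ => rfl) hlam) }
  refine ⟨V, fun s hs0 hs1 hC => ?_⟩
  obtain ⟨w, C₀, hTw⟩ := lattice_strongT hn hΓ
  have hS := lattice_sz (by omega) hΓ
  obtain ⟨C, hC⟩ := hC
  have h12 : (0 : ℝ) < 7 * d + 12 := by positivity
  refine S.isometric hs (S.C.invariant_metric hS hTw (s := s) hs0
    ⟨|C|, abs_nonneg C, fun γ i j x => ?_⟩ ?_)
  · rw [S.hCJ]
    have h1 : |Jg S.F (fun x : M => γ • x) (hA γ) x i j| ≤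
        fn (Jg S.F (fun x : M => γ • x) (hA γ) x)ᵀ := by
      rw [fn_transpose]
      exact abs_entry_le_fn _ i j
    refine h1.trans ((hC γ x).trans ?_)
    exact mul_le_mul_of_nonneg_right (le_abs_self C) (Real.rpow_nonneg (size_nonneg _) _)
  · rw [lt_div_iff₀ h12] at hs1
    linarith

end Pool.Agent.H73.LX
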