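import Mathlib
import Pool.Agent.H73.LX.Fe
import Pool.Agent.H56.JT.Jet

/-!
MP_d9606f_gt, full theorem: the monomials of degree `1, …, r` (helper73, from helper56's calculus
of jets).
-/

open MeasureTheory Filter Matrix
open scoped Topology ContDiff Manifold

namespace Pool.Agent.H73.LX

open Pool.Agent.H73.PZ Pool.Agent.H23.DM Pool.Agent.H67.LX Pool.Agent.H56.JT

theorem mem_range_e1 {d r : ℕ} (hr : 0 < r) (a : Mo d r) (h : dg a = 1) :
    a ∈ Set.range (e1 hr : Fin d → Mo d r) := by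
  have h1 : ∑ i, (a.1 i : ℕ) = 1 := h
  obtain ⟨i, -, hi⟩ : ∃ i ∈ Finset.univ, (a.1 i : ℕ) ≠ 0 := by
    by_contra hc
    push Not at hc
    rw [Finset.sum_eq_zero hc] at h1
    omega
  have h2 : (a.1 i : ℕ) + ∑ j ∈ Finset.univ.erase i, (a.1 j : ℕ) = 1 := by
    rw [Finset.add_sum_erase _ (fun j => (a.1 j : ℕ)) (Finset.mem_univ i)]
    exact h1
  have h3 : (a.1 i : ℕ) = 1 := by omega
  have h4 : ∑ j ∈ Finset.univ.erase i, (a.1 j : ℕ) = 0 := by omega
  refine ⟨i, ?_⟩
  apply Subtype.ext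
  funext j
  unfold e1
  by_cases hj : j = i
  · subst hj
    simp only [if_true]
    exact Fin.ext h3.symm
  · simp only [if_neg hj]
    have h5 := (Finset.sum_eq_zero_iff.1 h4) j (Finset.mem_erase.2 ⟨hj, Finset.mem_univ _⟩)
    exact Fin.ext (by rw [h5]; rfl)

/-- The monomials of degree `1, …, r`. -/
noncomputable def monD (d r : ℕ) (hr : 1 ≤ r) : MonD d r where
  ν := Mo d r
  fin := inferInstance
  dec := inferInstance
  mon := mon r
  e := e1 hr
  inj := Pool.Agent.H56.JT.e1_injective hr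
  lin := fun v k => mon_e1 hr k v
  le1 := fun v a hv => by
    refine (abs_mon_le a v).trans ?_
    calc ‖v‖ ^ dg a ≤ ‖v‖ ^ 1 := pow_le_pow_of_le_one (norm_nonneg _) hv (one_le_dg a)
      _ = ‖v‖ := pow_one _
  le2 := fun v a hv ha => by
    refine (abs_mon_le a v).trans ?_
    refine pow_le_pow_of_le_one (norm_nonneg _) hv ?_
    have h1 := one_le_dg a
    rcases Nat.lt_or_ge 1 (dg a) with h | h
    · exact h
    · exact (ha (mem_range_e1 hr a (le_antisymm h h1))).elim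
  jets := by
    intro U K f hU hK hKU hf
    obtain ⟨D, C, δ, -, hδ, hc, hb, ht, he⟩ := Pool.Agent.H56.JT.exists_jet hU hK hKU hf r
    refine ⟨D, hc, C, δ, hδ, fun x hx => ⟨⟨fun a k ha => ?_, fun l k => ?_⟩, fun v hv => hb x hx v hv⟩⟩
    · refine ht x hx a (e1 hr k) ?_
      rw [dg_e1]
      have h1 := one_le_dg a
      rcases Nat.lt_or_ge 1 (dg a) with h | h
      · exact h
      · exact (ha (mem_range_e1 hr a (le_antisymm h h1))).elim
    · exact he hr x hx l k
  uniq := fun B C δ hδ h => jet_unique B hδ h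

/-- **Existence of the fibre data.** -/
theorem exists_fib {p : ℕ} [Fact p.Prime] {n : ℕ} (hn : 3 ≤ n) {Γ : Subgroup (SLn p n)}
    (hΓ : IsLattice Γ) {d : ℕ} (hd : 1 ≤ d) {M : Type} [TopologicalSpace M]
    [ChartedSpace (EuclideanSpace ℝ (Fin d)) M] [IsManifold (𝓡 d) ∞ M] [CompactSpace M]
    [T2Space M] [MeasurableSpace M] [BorelSpace M] [MulAction Γ M]
    (hs : SmoothAction (𝓡 d) M Γ) :
    ∃ V : Fib Γ M, ∀ s : ℝ, 0 < s → s < 1 / (7 * (d : ℝ) + 12) →
      (∃ C : ℝ, ∀ (γ : Γ) (m : M), fn (V.J γ m) ≤ C * size (γ : SLn p n) ^ s) →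
      IsometricAction (𝓡 d) M Γ :=
  exists_fib_of hn hΓ hd (fun r hr => monD d r hr) hs

end Pool.Agent.H73.LX
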