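import Mathlib
import Pool.Agent.H73.LX.Stmt

/-!
MP_d9606f_gt, full theorem: manifolds of dimension zero (helper73).
-/

open MeasureTheory Filter
open scoped Topology ContDiff Manifold

namespace Pool.Agent.H73.LX

open Pool.Agent.H73.PZ

/-- Dimension zero: the Jacobi matrices vanish. -/
theorem isometric_zero {p : ℕ} [Fact p.Prime] {n : ℕ} (hn : 3 ≤ n) {Γ : Subgroup (SLn p n)}
    (hΓ : IsLattice Γ) {M : Type} [TopologicalSpace M]
    [ChartedSpace (EuclideanSpace ℝ (Fin 0)) M] [IsManifold (𝓡 0) ∞ M] [CompactSpace M]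
    [T2Space M] [MulAction Γ M] (hs : SmoothAction (𝓡 0) M Γ) :
    IsometricAction (𝓡 0) M Γ := by
  refine final hn hΓ hs ?_
  intro _ _ S ε _
  refine ⟨0, fun γ i j x => ?_⟩
  rw [S.hCJ, zero_mul]
  obtain ⟨c, hx, hb⟩ := S.F.cover x
  rw [S.F.LF2 c _ i x hx (Metric.ball_subset_ball (by linarith [S.F.r_pos c]) hb)]
  simp

end Pool.Agent.H73.LX
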